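import Mathlib

/-!
# Tools for sign extensions of Coxeter groups
-/

open Function

namespace Pool.Agent.V1116.CoxSign

/-! ### The combinatorial part: twisted permutations -/

section Abstract

variable {W : Type*} {H : Type*} [Group W] [Group H] (X : W → H) (Z : H) (k : W → W → ℕ)

/-- The product `X (r (n-1)) * ⋯ * X (r 0)`. -/
def P (r : ℕ → W) : ℕ → H
  | 0 => 1
  | n + 1 => X (r n) * P r n

omit [Group W] in
theorem commute_Z_P (hZ : ∀ r, Commute Z (X r)) (r : ℕ → W) (n : ℕ) : Commute Z (P X r n) := by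
  induction n with
  | zero => exact Commute.one_right Z
  | succ n ih => exact (hZ _).mul_right ih

theorem commute_P (hZ : ∀ r, Commute Z (X r)) (hc : ∀ a b, X a * X b = X b * X a * Z ^ k a b)
    (a : W) (r : ℕ → W) (n : ℕ) :
    X a * P X r n = P X r n * X a * Z ^ (∑ j ∈ Finset.range n, k a (r j)) := by
  induction n with
  | zero => simp [P]
  | succ n ih =>
    rw [Finset.sum_range_succ, pow_add]
    show X a * (X (r n) * P X r n) = X (r n) * P X r n * X a * _
    calc X a * (X (r n) * P X r n) = (X a * X (r n)) * P X r n := by rw [mul_assoc]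
      _ = X (r n) * X a * (Z ^ k a (r n) * P X r n) := by rw [hc]; simp only [mul_assoc]
      _ = X (r n) * X a * (P X r n * Z ^ k a (r n)) := by
          rw [((commute_Z_P X Z hZ r n).pow_left _).eq]
      _ = X (r n) * (X a * P X r n) * Z ^ k a (r n) := by simp only [mul_assoc]
      _ = _ := by rw [ih]; simp only [mul_assoc]

theorem P_sq (hXX : ∀ r, X r * X r = 1) (hZ : ∀ r, Commute Z (X r))
    (hc : ∀ a b, X a * X b = X b * X a * Z ^ k a b) (r : ℕ → W) (n : ℕ) :
    P X r n * P X r n =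
      Z ^ (∑ i ∈ Finset.range n, ∑ j ∈ Finset.range i, k (r i) (r j)) := by
  induction n with
  | zero => simp [P]
  | succ n ih =>
    rw [Finset.sum_range_succ, pow_add]
    have h1 := commute_P X Z k hZ hc (r n) r n
    set σ := ∑ j ∈ Finset.range n, k (r n) (r j) with hσ
    have hZX : Commute (Z ^ σ) (X (r n)) := (hZ _).pow_left _
    have hZP : Commute (Z ^ σ) (P X r n) := (commute_Z_P X Z hZ r n).pow_left _
    show X (r n) * P X r n * (X (r n) * P X r n) = _
    calc X (r n) * P X r n * (X (r n) * P X r n)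
        = P X r n * X (r n) * Z ^ σ * (X (r n) * P X r n) := by rw [h1]
      _ = P X r n * X (r n) * (Z ^ σ * X (r n)) * P X r n := by simp only [mul_assoc]
      _ = P X r n * (X (r n) * X (r n)) * (Z ^ σ * P X r n) := by
          rw [hZX.eq]; simp only [mul_assoc]
      _ = P X r n * P X r n * Z ^ σ := by rw [hXX, mul_one, hZP.eq, mul_assoc]
      _ = _ := by rw [ih]

omit [Group W] in
theorem P_add (r : ℕ → W) (m n : ℕ) (hr : ∀ i, r (m + i) = r i) :
    P X r (m + n) = P X r n * P X r m := by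
  induction n with
  | zero => simp [P]
  | succ n ih =>
    show X (r (m + n)) * P X r (m + n) = X (r n) * P X r n * P X r m
    rw [hr, ih, mul_assoc]

/-- The twisted permutation attached to an element of `W` and an element of `H`. -/
def T (a : W) (l : H) (p : W × H) : W × H := (a * p.1, l * X (p.1⁻¹ * a * p.1) * p.2)

theorem T_involutive (hXX : ∀ r, X r * X r = 1) {a : W} {l : H} (ha : a * a = 1) (hl : l * l = 1)
    (hlX : ∀ r, Commute l (X r)) : Involutive (T X a l) := by
  rintro ⟨w, h⟩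
  unfold T
  apply Prod.ext
  · show a * (a * w) = w
    rw [← mul_assoc, ha, one_mul]
  · show l * X ((a * w)⁻¹ * a * (a * w)) * (l * X (w⁻¹ * a * w) * h) = h
    have h1 : (a * w)⁻¹ * a * (a * w) = w⁻¹ * a * w := by group
    rw [h1, mul_assoc, ← mul_assoc (X _) (l * X _) h, ← mul_assoc (X _) l (X _),
      ← (hlX _).eq, mul_assoc l (X _) (X _), hXX, mul_one, ← mul_assoc, hl, one_mul]

theorem T_iterate {a b : W} {l l' : H} (ha : a * a = 1) (hb : b * b = 1)
    (hlX : ∀ r, Commute l (X r)) (hlX' : ∀ r, Commute l' (X r)) (w : W) (h : H) (n : ℕ) :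
    (T X a l ∘ T X b l')^[n] (w, h) = ((a * b) ^ n * w,
      (l * l') ^ n * P X (fun i => w⁻¹ * ((b * a) ^ i * b) * w) (2 * n) * h) := by
  induction n with
  | zero => simp [P]
  | succ n ih =>
    rw [iterate_succ_apply', ih, comp_apply]
    have hai : a⁻¹ = a := inv_eq_of_mul_eq_one_left ha
    have hbi : b⁻¹ = b := inv_eq_of_mul_eq_one_left hb
    have hinv : ((a * b) ^ n)⁻¹ = (b * a) ^ n := by rw [← inv_pow, mul_inv_rev, hai, hbi]
    have hmv : b * (a * b) ^ n = (b * a) ^ n * b := (mul_pow_mul b a n).symm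
    set w' := (a * b) ^ n * w with hw'
    have hw'i : w'⁻¹ = w⁻¹ * (b * a) ^ n := by rw [hw', mul_inv_rev, hinv]
    have e1 : w'⁻¹ * b * w' = w⁻¹ * ((b * a) ^ (2 * n) * b) * w := by
      rw [hw'i, hw', two_mul, pow_add]
      calc w⁻¹ * (b * a) ^ n * b * ((a * b) ^ n * w)
          = w⁻¹ * (b * a) ^ n * (b * (a * b) ^ n) * w := by simp only [mul_assoc]
        _ = _ := by rw [hmv]; simp only [mul_assoc]
    have e2 : (b * w')⁻¹ * a * (b * w') = w⁻¹ * ((b * a) ^ (2 * n + 1) * b) * w := by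
      rw [mul_inv_rev, hbi, hw'i, hw', pow_succ, two_mul, pow_add]
      calc w⁻¹ * (b * a) ^ n * b * a * (b * ((a * b) ^ n * w))
          = w⁻¹ * (b * a) ^ n * (b * a) * (b * (a * b) ^ n) * w := by simp only [mul_assoc]
        _ = w⁻¹ * (b * a) ^ n * ((b * a) * (b * a) ^ n) * b * w := by
            rw [hmv]; simp only [mul_assoc]
        _ = w⁻¹ * (b * a) ^ n * ((b * a) ^ n * (b * a)) * b * w := by
            rw [← pow_succ, pow_succ']
        _ = _ := by simp only [mul_assoc]
    have hP : P X (fun i => w⁻¹ * ((b * a) ^ i * b) * w) (2 * (n + 1)) =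
        X (w⁻¹ * ((b * a) ^ (2 * n + 1) * b) * w) * (X (w⁻¹ * ((b * a) ^ (2 * n) * b) * w) *
          P X (fun i => w⁻¹ * ((b * a) ^ i * b) * w) (2 * n)) := rfl
    rw [hP]
    unfold T
    apply Prod.ext
    · show a * (b * w') = (a * b) ^ (n + 1) * w
      rw [hw', pow_succ']; simp only [mul_assoc]
    · show l * X ((b * w')⁻¹ * a * (b * w')) * (l' * X (w'⁻¹ * b * w') *
        ((l * l') ^ n * P X (fun i => w⁻¹ * ((b * a) ^ i * b) * w) (2 * n) * h)) = _
      rw [e1, e2]
      set x := X (w⁻¹ * ((b * a) ^ (2 * n + 1) * b) * w)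
      set y := X (w⁻¹ * ((b * a) ^ (2 * n) * b) * w)
      set p := P X (fun i => w⁻¹ * ((b * a) ^ i * b) * w) (2 * n)
      have c1 : Commute x l' := (hlX' _).symm
      have c2 : Commute x ((l * l') ^ n) := (((hlX _).mul_left (hlX' _)).pow_left n).symm
      have c3 : Commute y ((l * l') ^ n) := (((hlX _).mul_left (hlX' _)).pow_left n).symm
      calc l * x * (l' * y * ((l * l') ^ n * p * h))
          = l * (x * l') * (y * (l * l') ^ n) * p * h := by simp only [mul_assoc]
        _ = l * (l' * x) * ((l * l') ^ n * y) * p * h := by rw [c1.eq, c3.eq]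
        _ = (l * l') * (x * (l * l') ^ n) * y * p * h := by simp only [mul_assoc]
        _ = (l * l') * ((l * l') ^ n * x) * y * p * h := by rw [c2.eq]
        _ = _ := by rw [pow_succ' (l * l') n]; simp only [mul_assoc]

/-- The number of (ordered) pairs of reflections of a dihedral subgroup counted by `k`. -/
def N (k : W → W → ℕ) (a b : W) (m : ℕ) : ℕ :=
  ∑ i ∈ Finset.range m, ∑ j ∈ Finset.range i, k ((b * a) ^ i * b) ((b * a) ^ j * b)

theorem T_iterate_order (hXX : ∀ r, X r * X r = 1) (hZ : ∀ r, Commute Z (X r))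
    (hc : ∀ a b, X a * X b = X b * X a * Z ^ k a b)
    (hk : ∀ g r r', k (g⁻¹ * r * g) (g⁻¹ * r' * g) = k r r')
    {a b : W} {l l' : H} (ha : a * a = 1) (hb : b * b = 1)
    (hlX : ∀ r, Commute l (X r)) (hlX' : ∀ r, Commute l' (X r)) (w : W) (h : H) (m : ℕ)
    (hm : (a * b) ^ m = 1) :
    (T X a l ∘ T X b l')^[m] (w, h) = (w, (l * l') ^ m * Z ^ N k a b m * h) := by
  rw [T_iterate X ha hb hlX hlX', hm, one_mul, two_mul, P_add, P_sq X Z k hXX hZ hc]
  · congr 4
    unfold N
    apply Finset.sum_congr rfl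
    intro i _
    apply Finset.sum_congr rfl
    intro j _
    exact hk w _ _
  · intro i
    have : (b * a) ^ m = 1 := by
      have h1 : b * (a * b) ^ m = (b * a) ^ m * b := (mul_pow_mul b a m).symm
      rw [hm, mul_one] at h1
      have h2 := congrArg (· * b) h1
      simp only [mul_assoc] at h2
      rw [hb, mul_one] at h2
      exact h2.symm
    show w⁻¹ * ((b * a) ^ (m + i) * b) * w = w⁻¹ * ((b * a) ^ i * b) * w
    rw [pow_add, this, one_mul]

end Abstract

/-! ### The concrete group `H` -/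

section Concrete

/-- The sign of an element of `ZMod 2`. -/
def sgn (x : ZMod 2) : ℤ := if x = 0 then 1 else -1

theorem sgn_add : ∀ x y : ZMod 2, sgn (x + y) = sgn x * sgn y := by decide

theorem sgn_mul_self : ∀ x : ZMod 2, sgn x * sgn x = 1 := by decide

theorem sgn_natCast (n : ℕ) : sgn (n : ZMod 2) = (-1) ^ n := by
  induction n with
  | zero => rfl
  | succ n ih => rw [Nat.cast_add, sgn_add, ih, pow_succ]; rfl

variable {W : Type*} {A : Type*} [Ring A] (β : W → W → ZMod 2)

/-- The set on which everything acts. -/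
abbrev Y (W A : Type*) : Type _ := (W →₀ ZMod 2) × A

/-- The functional `∑ r' ↦ ∑ β r r'`. -/
noncomputable def kap (r : W) : (W →₀ ZMod 2) →ₗ[ZMod 2] ZMod 2 :=
  Finsupp.linearCombination (ZMod 2) (β r)

theorem kap_single (r r' : W) : kap β r (Finsupp.single r' 1) = β r r' := by
  unfold kap; simp

theorem X_invol (r : W) (hβ : β r r = 0) : Involutive (fun p : Y W A =>
    ((p.1 + Finsupp.single r 1, sgn (kap β r p.1) • p.2) : Y W A)) := by
  rintro ⟨a, x⟩
  apply Prod.ext
  · show a + Finsupp.single r 1 + Finsupp.single r 1 = a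
    rw [add_assoc, ← Finsupp.single_add]
    have : (1 : ZMod 2) + 1 = 0 := by decide
    rw [this, Finsupp.single_zero, add_zero]
  · show sgn (kap β r (a + Finsupp.single r 1)) • sgn (kap β r a) • x = x
    rw [map_add, kap_single, hβ, add_zero, smul_smul, sgn_mul_self, one_smul]

/-- The permutation attached to `r`. -/
noncomputable def X (hβ : ∀ r, β r r = 0) (r : W) : Equiv.Perm (Y W A) :=
  (X_invol β r (hβ r)).toPerm

theorem X_apply (hβ : ∀ r, β r r = 0) (r : W) (p : Y W A) :
    X β hβ r p = (p.1 + Finsupp.single r 1, sgn (kap β r p.1) • p.2) := rfl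

/-- The central permutation `α ↦ -α`. -/
def Z : Equiv.Perm (Y W A) := Equiv.prodCongr (Equiv.refl _) (Equiv.neg A)

theorem Z_apply (p : Y W A) : (Z : Equiv.Perm (Y W A)) p = (p.1, -p.2) := rfl

theorem Z_pow_apply (n : ℕ) (p : Y W A) :
    ((Z : Equiv.Perm (Y W A)) ^ n) p = (p.1, ((-1 : ℤ) ^ n) • p.2) := by
  induction n generalizing p with
  | zero => simp
  | succ n ih => rw [pow_succ, Equiv.Perm.mul_apply, ih, Z_apply, pow_succ]; simp

/-- Left multiplication by a unit of `A`. -/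
def Lm (u : Aˣ) : Equiv.Perm (Y W A) := Equiv.prodCongr (Equiv.refl _) u.mulLeft

theorem Lm_apply (u : Aˣ) (p : Y W A) : (Lm u : Equiv.Perm (Y W A)) p = (p.1, (u : A) * p.2) := rfl

theorem Lm_mul (u v : Aˣ) : (Lm (u * v) : Equiv.Perm (Y W A)) = Lm u * Lm v := by
  ext p : 1
  rw [Equiv.Perm.mul_apply, Lm_apply, Lm_apply, Lm_apply, Units.val_mul, mul_assoc]

theorem Lm_one : (Lm (1 : Aˣ) : Equiv.Perm (Y W A)) = 1 := by
  ext p : 1
  rw [Lm_apply, Units.val_one, one_mul]; rfl

theorem Lm_neg_one : (Lm (-1 : Aˣ) : Equiv.Perm (Y W A)) = Z := by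
  ext p : 1
  rw [Lm_apply, Z_apply, Units.val_neg, Units.val_one, neg_one_mul]

theorem Lm_pow (u : Aˣ) (n : ℕ) : (Lm (u ^ n) : Equiv.Perm (Y W A)) = Lm u ^ n := by
  induction n with
  | zero => rw [pow_zero, pow_zero, Lm_one]
  | succ n ih => rw [pow_succ, pow_succ, Lm_mul, ih]

theorem X_mul_self (hβ : ∀ r, β r r = 0) (r : W) :
    (X β hβ r : Equiv.Perm (Y W A)) * X β hβ r = 1 := by
  ext p : 1
  exact X_invol β r (hβ r) p

theorem commute_Z_X (hβ : ∀ r, β r r = 0) (r : W) :
    Commute (Z : Equiv.Perm (Y W A)) (X β hβ r) := by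
  ext p : 1
  rw [Equiv.Perm.mul_apply, Equiv.Perm.mul_apply, Z_apply, X_apply, X_apply, Z_apply]
  simp

theorem commute_Lm_X (hβ : ∀ r, β r r = 0) (u : Aˣ) (r : W) :
    Commute (Lm u : Equiv.Perm (Y W A)) (X β hβ r) := by
  ext p : 1
  rw [Equiv.Perm.mul_apply, Equiv.Perm.mul_apply, Lm_apply, X_apply, X_apply, Lm_apply]
  apply Prod.ext
  · rfl
  · show (u : A) * (sgn (kap β r p.1) • p.2) = sgn (kap β r p.1) • ((u : A) * p.2)
    rw [mul_smul_comm]

theorem commute_Z_Lm (u : Aˣ) : Commute (Z : Equiv.Perm (Y W A)) (Lm u) := by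
  ext p : 1
  rw [Equiv.Perm.mul_apply, Equiv.Perm.mul_apply, Lm_apply, Z_apply, Z_apply, Lm_apply]
  simp

theorem X_comm (hβ : ∀ r, β r r = 0) (k : W → W → ℕ)
    (hk : ∀ r r', β r r' + β r' r = (k r r' : ZMod 2)) (r r' : W) :
    (X β hβ r : Equiv.Perm (Y W A)) * X β hβ r' = X β hβ r' * X β hβ r * Z ^ k r r' := by
  ext p : 1
  rw [Equiv.Perm.mul_apply, Equiv.Perm.mul_apply, Equiv.Perm.mul_apply, Z_pow_apply, X_apply,
    X_apply, X_apply, X_apply, ← sgn_natCast, ← hk]
  apply Prod.ext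
  · show p.1 + Finsupp.single r' 1 + Finsupp.single r 1 =
      p.1 + Finsupp.single r 1 + Finsupp.single r' 1
    rw [add_right_comm]
  · show sgn (kap β r (p.1 + Finsupp.single r' 1)) • sgn (kap β r' p.1) • p.2 =
      sgn (kap β r' (p.1 + Finsupp.single r 1)) • sgn (kap β r p.1) •
        sgn (β r r' + β r' r) • p.2
    rw [map_add, map_add, kap_single, kap_single, smul_smul, smul_smul, smul_smul]
    congr 1
    generalize kap β r p.1 = x
    generalize kap β r' p.1 = y
    generalize β r r' = z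
    generalize β r' r = t
    revert x y z t
    decide

end Concrete

/-! ### The Clifford part -/

section Clifford

theorem sin_smul_pow {A : Type*} [Ring A] [Algebra ℝ A] {x y : A} (hx : x * x = 1)
    (hy : y * y = 1) {θ : ℝ} (h : x * y + y * x = algebraMap ℝ A (2 * Real.cos θ)) (n : ℕ) :
    Real.sin θ • (x * y) ^ (n + 1) =
      Real.sin ((n + 1 : ℕ) * θ) • (x * y) - Real.sin (n * θ) • (1 : A) := by
  have hsq : (x * y) * (x * y) = (2 * Real.cos θ) • (x * y) - 1 := by
    have h1 : x * y = algebraMap ℝ A (2 * Real.cos θ) - y * x := eq_sub_of_add_eq h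
    calc (x * y) * (x * y) = (x * y) * (algebraMap ℝ A (2 * Real.cos θ) - y * x) := by rw [← h1]
      _ = (x * y) * algebraMap ℝ A (2 * Real.cos θ) - x * (y * y) * x := by
          rw [mul_sub]; simp only [mul_assoc]
      _ = _ := by rw [hy, mul_one, hx, ← Algebra.commutes, ← Algebra.smul_def]
  induction n with
  | zero => simp
  | succ n ih =>
    rw [pow_succ, ← smul_mul_assoc, ih, sub_mul, smul_mul_assoc, hsq, smul_mul_assoc, one_mul,
      smul_sub, smul_smul]
    have e1 : Real.sin ((n + 1 + 1 : ℕ) * θ) =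
        Real.sin ((n + 1 : ℕ) * θ) * (2 * Real.cos θ) - Real.sin (n * θ) := by
      have h1 : ((n + 1 + 1 : ℕ) : ℝ) * θ = ((n + 1 : ℕ) : ℝ) * θ + θ := by push_cast; ring
      have h2 : (n : ℝ) * θ = ((n + 1 : ℕ) : ℝ) * θ - θ := by push_cast; ring
      rw [h1, h2, Real.sin_add, Real.sin_sub]
      ring
    rw [e1, sub_smul]
    abel

theorem pow_eq {A : Type*} [Ring A] [Algebra ℝ A] {x y : A} (hx : x * x = 1)
    (hy : y * y = 1) {k m : ℕ} (hk : 0 < k) (hkm : k < m)
    (h : x * y + y * x = algebraMap ℝ A (2 * Real.cos (k * Real.pi / m))) :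
    (x * y) ^ m = (-1) ^ k := by
  obtain ⟨n, rfl⟩ : ∃ n, m = n + 1 := ⟨m - 1, by omega⟩
  have hm0 : (((n + 1 : ℕ) : ℝ)) ≠ 0 := by positivity
  set θ : ℝ := k * Real.pi / ((n + 1 : ℕ) : ℝ) with hθ
  have h1 := sin_smul_pow hx hy h n
  have hmθ : ((n + 1 : ℕ) : ℝ) * θ = k * Real.pi := by rw [hθ]; field_simp
  have hnθ : (n : ℝ) * θ = k * Real.pi - θ := by
    rw [← hmθ]; push_cast; ring
  rw [hmθ, hnθ, Real.sin_sub, Real.sin_nat_mul_pi, zero_mul, zero_sub, zero_smul, zero_sub,
    neg_smul, neg_neg, Real.cos_nat_mul_pi] at h1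
  have hs : Real.sin θ ≠ 0 := by
    apply ne_of_gt
    apply Real.sin_pos_of_pos_of_lt_pi
    · rw [hθ]; positivity
    · rw [hθ, div_lt_iff₀ (by positivity), mul_comm]
      exact mul_lt_mul_of_pos_left (by exact_mod_cast hkm) Real.pi_pos
  have h2 : Real.sin θ • (x * y) ^ (n + 1) = Real.sin θ • ((-1 : A) ^ k) := by
    rw [h1, mul_comm, mul_smul]
    congr 1
    rw [← Algebra.algebraMap_eq_smul_one, map_pow, map_neg, map_one]
  have h3 := congrArg (fun z => (Real.sin θ)⁻¹ • z) h2
  simpa [smul_smul, inv_mul_cancel₀ hs] using h3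

universe u

variable {B : Type u} (M : CoxeterMatrix B)

/-- Clifford algebras realise all sign patterns that are `-1` on commuting pairs. -/
theorem exists_clifford (ε : B → B → Prop) (hε : ∀ s t, ε s t ↔ ε t s) :
    ∃ (A : Type u) (_ : Ring A) (e : B → Aˣ), (-1 : A) ≠ 1 ∧ (∀ s, e s * e s = 1) ∧
      (∀ s t, s ≠ t → M s t ≠ 0 → (M s t = 2 ∨ ε s t) → (e s * e t) ^ M s t = -1) ∧
      (∀ s t, s ≠ t → M s t ≠ 0 → ¬ (M s t = 2 ∨ ε s t) → (e s * e t) ^ M s t = 1) := by
  classical
  let kk : B → B → ℕ := fun s t => if M s t = 2 ∨ ε s t then 1 else 2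
  have hkk : ∀ s t, kk s t = kk t s := by
    intro s t
    show (if M s t = 2 ∨ ε s t then 1 else 2) = (if M t s = 2 ∨ ε t s then 1 else 2)
    rw [M.symmetric, hε]
  let b : B → B → ℝ := fun s t => if s = t then 1 else Real.cos (kk s t * Real.pi / M s t)
  have hb : ∀ s t, b s t = b t s := by
    intro s t
    show (if s = t then (1 : ℝ) else _) = (if t = s then (1 : ℝ) else _)
    rw [M.symmetric, hkk]
    by_cases h : s = t
    · rw [if_pos h, if_pos h.symm]
    · rw [if_neg h, if_neg (Ne.symm h)]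
  let Bil : (B →₀ ℝ) →ₗ[ℝ] (B →₀ ℝ) →ₗ[ℝ] ℝ :=
    Finsupp.linearCombination ℝ (fun s => Finsupp.linearCombination ℝ (b s))
  have hBil : ∀ s t, Bil (Finsupp.single s 1) (Finsupp.single t 1) = b s t := by
    intro s t; simp [Bil]
  let Q : QuadraticForm ℝ (B →₀ ℝ) := LinearMap.BilinMap.toQuadraticMap Bil
  let i : B → CliffordAlgebra Q := fun s => CliffordAlgebra.ι Q (Finsupp.single s 1)
  have hii : ∀ s, i s * i s = 1 := by
    intro s
    show CliffordAlgebra.ι Q _ * CliffordAlgebra.ι Q _ = 1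
    rw [CliffordAlgebra.ι_sq_scalar]
    show algebraMap ℝ _ (Bil (Finsupp.single s 1) (Finsupp.single s 1)) = 1
    rw [hBil]
    show algebraMap ℝ _ (if s = s then (1 : ℝ) else _) = 1
    rw [if_pos rfl, map_one]
  have hij : ∀ s t, s ≠ t → i s * i t + i t * i s =
      algebraMap ℝ _ (2 * Real.cos (kk s t * Real.pi / M s t)) := by
    intro s t hst
    show CliffordAlgebra.ι Q _ * CliffordAlgebra.ι Q _ +
      CliffordAlgebra.ι Q _ * CliffordAlgebra.ι Q _ = _
    rw [CliffordAlgebra.ι_mul_ι_add_swap]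
    congr 1
    show QuadraticMap.polar (LinearMap.BilinMap.toQuadraticMap Bil) _ _ = _
    rw [LinearMap.BilinMap.polar_toQuadraticMap, hBil, hBil, hb t s]
    show (if s = t then (1 : ℝ) else _) + (if s = t then (1 : ℝ) else _) = _
    rw [if_neg hst]; ring
  have : Invertible (2 : ℝ) := invertibleOfNonzero two_ne_zero
  refine ⟨CliffordAlgebra Q, inferInstance, fun s => ⟨i s, i s, hii s, hii s⟩, ?_, ?_, ?_, ?_⟩
  · intro h
    have h1 : algebraMap ℝ (CliffordAlgebra Q) (-1) = algebraMap ℝ (CliffordAlgebra Q) 1 := by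
      rw [map_neg, map_one]; exact h
    have h2 := (algebraMap ℝ (CliffordAlgebra Q)).injective h1
    norm_num at h2
  · intro s
    exact Units.ext (hii s)
  · intro s t hst hM hε'
    apply Units.ext
    show (i s * i t) ^ M s t = -1
    have hk1 : kk s t = 1 := if_pos hε'
    have hM1 : M s t ≠ 1 := M.off_diagonal s t hst
    have := pow_eq (hii s) (hii t) (k := kk s t) (m := M s t) (by omega) (by omega) (hij s t hst)
    rw [this, hk1, pow_one]
  · intro s t hst hM hε'
    apply Units.ext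
    show (i s * i t) ^ M s t = 1
    have hk1 : kk s t = 2 := if_neg hε'
    have hM1 : M s t ≠ 1 := M.off_diagonal s t hst
    have hM2 : M s t ≠ 2 := fun h => hε' (Or.inl h)
    have := pow_eq (hii s) (hii t) (k := kk s t) (m := M s t) (by omega) (by omega) (hij s t hst)
    rw [this, hk1]; simp

end Clifford

end Pool.Agent.V1116.CoxSign
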