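import Mathlib

/-!
# Multiple transitivity of `GL(V)` on an orbit of sets of subspaces: common tools
-/

open Module Cardinal

namespace Pool.Agent.V1116.GLTrans

universe u v

variable {F : Type u} [Field F] {V : Type v} [AddCommGroup V] [Module F V]

/-- The translate `𝓕 g = {U g : U ∈ 𝓕}` of a set `𝓕` of subspaces by `g ∈ GL(V)`. -/
def translate (g : V ≃ₗ[F] V) (𝓕 : Set (Submodule F V)) : Set (Submodule F V) :=
  (fun U => U.map (g : V →ₗ[F] V)) '' 𝓕

/-- The orbit of `𝓕` under `GL(V)`. -/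
def orbit (𝓕 : Set (Submodule F V)) : Set (Set (Submodule F V)) :=
  {𝓖 | ∃ g : V ≃ₗ[F] V, 𝓖 = translate g 𝓕}

/-- `GL(V)` acts `k`-transitively on the orbit of `𝓕`: any `k`-tuple of pairwise distinct elements
of the orbit can be mapped to any other such tuple by an element of `GL(V)`. -/
def KTransitive (k : ℕ) (𝓕 : Set (Submodule F V)) : Prop :=
  ∀ a b : Fin k → Set (Submodule F V), (∀ i, a i ∈ orbit 𝓕) → (∀ i, b i ∈ orbit 𝓕) →
    Function.Injective a → Function.Injective b → ∃ g : V ≃ₗ[F] V, ∀ i, translate g (a i) = b i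

/-- The degree of transitivity of `GL(V)` on the orbit of `𝓕`: the supremum of all `k ≥ 1` for
which the action is `k`-transitive. -/
noncomputable def transitivityDegree (𝓕 : Set (Submodule F V)) : ℕ∞ :=
  ⨆ k : {k : ℕ // 1 ≤ k ∧ KTransitive k 𝓕}, ((k : ℕ) : ℕ∞)

theorem mem_translate {g : V ≃ₗ[F] V} {𝓕 : Set (Submodule F V)} {U : Submodule F V} :
    U ∈ translate g 𝓕 ↔ U.map (g.symm : V →ₗ[F] V) ∈ 𝓕 := by
  constructor
  · rintro ⟨W, hW, rfl⟩
    have : (W.map (g : V →ₗ[F] V)).map (g.symm : V →ₗ[F] V) = W := by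
      rw [← Submodule.map_comp]
      have : (g.symm : V →ₗ[F] V) ∘ₗ (g : V →ₗ[F] V) = LinearMap.id := by ext; simp
      rw [this, Submodule.map_id]
    simpa only [this] using hW
  · intro h
    refine ⟨_, h, ?_⟩
    show (U.map (g.symm : V →ₗ[F] V)).map (g : V →ₗ[F] V) = U
    rw [← Submodule.map_comp]
    have : (g : V →ₗ[F] V) ∘ₗ (g.symm : V →ₗ[F] V) = LinearMap.id := by ext; simp
    rw [this, Submodule.map_id]

theorem map_mem_translate {g : V ≃ₗ[F] V} {𝓕 : Set (Submodule F V)} {U : Submodule F V}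
    (h : U ∈ 𝓕) : U.map (g : V →ₗ[F] V) ∈ translate g 𝓕 := ⟨U, h, rfl⟩

theorem translate_trans (g h : V ≃ₗ[F] V) (𝓕 : Set (Submodule F V)) :
    translate h (translate g 𝓕) = translate (g.trans h) 𝓕 := by
  ext U
  simp only [translate, Set.mem_image]
  constructor
  · rintro ⟨W, ⟨X, hX, rfl⟩, rfl⟩
    exact ⟨X, hX, by rw [← Submodule.map_comp]; rfl⟩
  · rintro ⟨X, hX, rfl⟩
    exact ⟨_, ⟨X, hX, rfl⟩, by rw [← Submodule.map_comp]; rfl⟩

theorem translate_refl (𝓕 : Set (Submodule F V)) :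
    translate (LinearEquiv.refl F V) 𝓕 = 𝓕 := by
  ext U
  rw [mem_translate]
  have : U.map ((LinearEquiv.refl F V).symm : V →ₗ[F] V) = U := Submodule.map_id U
  rw [this]

theorem translate_injective (g : V ≃ₗ[F] V) :
    Function.Injective (translate g : Set (Submodule F V) → Set (Submodule F V)) := by
  intro 𝓐 𝓑 h
  have := congrArg (translate g.symm) h
  rwa [translate_trans, translate_trans, LinearEquiv.self_trans_symm, translate_refl,
    translate_refl] at this

theorem self_mem_orbit (𝓕 : Set (Submodule F V)) : 𝓕 ∈ orbit 𝓕 :=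
  ⟨LinearEquiv.refl F V, (translate_refl 𝓕).symm⟩

theorem translate_mem_orbit (g : V ≃ₗ[F] V) (𝓕 : Set (Submodule F V)) :
    translate g 𝓕 ∈ orbit 𝓕 := ⟨g, rfl⟩

/-! ### Failure of `k`-transitivity for `k ≥ 3` -/

theorem not_kTransitive {𝓕 : Set (Submodule F V)} (hinf : (orbit 𝓕).Infinite)
    {a₀ a₁ a₂ b₀ b₁ b₂ : Set (Submodule F V)}
    (ha₀ : a₀ ∈ orbit 𝓕) (ha₁ : a₁ ∈ orbit 𝓕) (ha₂ : a₂ ∈ orbit 𝓕)
    (hb₀ : b₀ ∈ orbit 𝓕) (hb₁ : b₁ ∈ orbit 𝓕) (hb₂ : b₂ ∈ orbit 𝓕)
    (ha01 : a₀ ≠ a₁) (ha02 : a₀ ≠ a₂) (ha12 : a₁ ≠ a₂)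
    (hb01 : b₀ ≠ b₁) (hb02 : b₀ ≠ b₂) (hb12 : b₁ ≠ b₂)
    (hno : ∀ g : V ≃ₗ[F] V, translate g a₀ = b₀ → translate g a₁ = b₁ → translate g a₂ ≠ b₂)
    (k : ℕ) (hk : 3 ≤ k) : ¬ KTransitive k 𝓕 := by
  have aux : ∀ c₀ c₁ c₂ : Set (Submodule F V), c₀ ∈ orbit 𝓕 → c₁ ∈ orbit 𝓕 → c₂ ∈ orbit 𝓕 →
      c₀ ≠ c₁ → c₀ ≠ c₂ → c₁ ≠ c₂ → ∃ a : Fin k → Set (Submodule F V), (∀ i, a i ∈ orbit 𝓕) ∧
        Function.Injective a ∧ a ⟨0, by omega⟩ = c₀ ∧ a ⟨1, by omega⟩ = c₁ ∧
        a ⟨2, by omega⟩ = c₂ := by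
    intro c₀ c₁ c₂ h₀ h₁ h₂ h01 h02 h12
    have hinf' : (orbit 𝓕 \ {c₀, c₁, c₂}).Infinite :=
      hinf.sdiff (Set.toFinite _)
    let s := hinf'.natEmbedding
    have hs : ∀ n, (s n : Set (Submodule F V)) ∈ orbit 𝓕 ∧ (s n : Set (Submodule F V)) ≠ c₀ ∧
        (s n : Set (Submodule F V)) ≠ c₁ ∧ (s n : Set (Submodule F V)) ≠ c₂ := by
      intro n
      have := (s n).2
      simp only [Set.mem_sdiff, Set.mem_insert_iff, Set.mem_singleton_iff, not_or] at this
      exact ⟨this.1, this.2.1, this.2.2.1, this.2.2.2⟩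
    refine ⟨fun i => if (i : ℕ) = 0 then c₀ else if (i : ℕ) = 1 then c₁ else
      if (i : ℕ) = 2 then c₂ else (s i : Set (Submodule F V)), ?_, ?_, ?_, ?_, ?_⟩
    · intro i
      simp only
      split_ifs
      · exact h₀
      · exact h₁
      · exact h₂
      · exact (hs _).1
    · intro i j hij
      simp only at hij
      apply Fin.ext
      split_ifs at hij with h1 h2 h3 h4 h5 h6 h7 h8 h9 h10 h11 h12'
      all_goals first
        | omega
        | (exfalso; first
            | exact h01 hij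
            | exact h02 hij
            | exact h12 hij
            | exact h01 hij.symm
            | exact h02 hij.symm
            | exact h12 hij.symm
            | exact (hs _).2.1 hij
            | exact (hs _).2.2.1 hij
            | exact (hs _).2.2.2 hij
            | exact (hs _).2.1 hij.symm
            | exact (hs _).2.2.1 hij.symm
            | exact (hs _).2.2.2 hij.symm)
        | exact s.injective (Subtype.ext hij)
    · simp
    · simp
    · simp
  intro h
  obtain ⟨a, ha, hai, e0, e1, e2⟩ := aux a₀ a₁ a₂ ha₀ ha₁ ha₂ ha01 ha02 ha12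
  obtain ⟨b, hb, hbi, f0, f1, f2⟩ := aux b₀ b₁ b₂ hb₀ hb₁ hb₂ hb01 hb02 hb12
  obtain ⟨g, hg⟩ := h a b ha hb hai hbi
  refine hno g ?_ ?_ ?_
  · rw [← e0, ← f0]; exact hg _
  · rw [← e1, ← f1]; exact hg _
  · rw [← e2, ← f2]; exact hg _

/-- A criterion for `2`-transitivity. -/
theorem kTransitive_two {𝓕 : Set (Submodule F V)}
    (h : ∀ g g' : V ≃ₗ[F] V, translate g 𝓕 ≠ 𝓕 → translate g' 𝓕 ≠ 𝓕 →
      ∃ k : V ≃ₗ[F] V, translate k 𝓕 = 𝓕 ∧ translate k (translate g 𝓕) = translate g' 𝓕) :
    KTransitive 2 𝓕 := by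
  intro a b ha hb hai hbi
  obtain ⟨x, hx⟩ := ha 0
  obtain ⟨y, hy⟩ := ha 1
  obtain ⟨z, hz⟩ := hb 0
  obtain ⟨w, hw⟩ := hb 1
  have h01 : a 0 ≠ a 1 := fun e => absurd (hai e) (by decide)
  have h01' : b 0 ≠ b 1 := fun e => absurd (hbi e) (by decide)
  obtain ⟨k, hk1, hk2⟩ := h (y.trans x.symm) (w.trans z.symm)
    (by
      intro e
      apply h01
      rw [hx, hy]
      have := congrArg (translate x) e
      rw [translate_trans, LinearEquiv.trans_assoc, LinearEquiv.symm_trans_self,
        LinearEquiv.trans_refl] at this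
      exact this.symm)
    (by
      intro e
      apply h01'
      rw [hz, hw]
      have := congrArg (translate z) e
      rw [translate_trans, LinearEquiv.trans_assoc, LinearEquiv.symm_trans_self,
        LinearEquiv.trans_refl] at this
      exact this.symm)
  refine ⟨(x.symm.trans k).trans z, ?_⟩
  intro i
  fin_cases i
  · show translate _ (a 0) = b 0
    rw [← translate_trans, ← translate_trans, hx, translate_trans x x.symm,
      LinearEquiv.self_trans_symm, translate_refl, hk1, hz]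
  · show translate _ (a 1) = b 1
    rw [← translate_trans, ← translate_trans, hy, translate_trans y x.symm, hk2,
      translate_trans, LinearEquiv.trans_assoc, LinearEquiv.symm_trans_self,
      LinearEquiv.trans_refl, hw]

theorem transitivityDegree_eq_two {𝓕 : Set (Submodule F V)} (h2 : KTransitive 2 𝓕)
    (h3 : ∀ k, 3 ≤ k → ¬ KTransitive k 𝓕) : transitivityDegree 𝓕 = 2 := by
  apply le_antisymm
  · apply iSup_le
    rintro ⟨k, -, hk⟩
    have : k ≤ 2 := by
      by_contra hcon
      exact h3 k (by omega) hk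
    exact_mod_cast this
  · exact le_iSup (fun k : {k : ℕ // 1 ≤ k ∧ KTransitive k 𝓕} => ((k : ℕ) : ℕ∞))
      ⟨2, by norm_num, h2⟩

/-! ### Linear algebra -/

/-- Two injective maps whose images have the same codimension differ by an automorphism. -/
theorem exists_extend {A : Type v} [AddCommGroup A] [Module F A] (f f' : A →ₗ[F] V)
    (hf : Function.Injective f) (hf' : Function.Injective f')
    (h : Module.rank F (V ⧸ LinearMap.range f) = Module.rank F (V ⧸ LinearMap.range f')) :
    ∃ g : V ≃ₗ[F] V, ∀ a, g (f a) = f' a := by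
  have key : ∀ f : A →ₗ[F] V, Function.Injective f → ∃ e : V ≃ₗ[F] A × (V ⧸ LinearMap.range f),
      ∀ a, e (f a) = (a, 0) := by
    intro f hf
    obtain ⟨r, hr⟩ := f.exists_leftInverse_of_injective (LinearMap.ker_eq_bot.mpr hf)
    have hr' : ∀ a, r (f a) = a := fun a => DFunLike.congr_fun hr a
    refine ⟨LinearEquiv.ofBijective (r.prod (LinearMap.range f).mkQ) ⟨?_, ?_⟩, ?_⟩
    · rw [← LinearMap.ker_eq_bot, LinearMap.ker_eq_bot']
      intro m hm
      have h1 : r m = 0 := congrArg Prod.fst hm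
      have h2 : (LinearMap.range f).mkQ m = 0 := congrArg Prod.snd hm
      rw [Submodule.mkQ_apply, Submodule.Quotient.mk_eq_zero] at h2
      obtain ⟨a, rfl⟩ := h2
      rw [hr'] at h1
      rw [h1, map_zero]
    · rintro ⟨a, q⟩
      obtain ⟨w, rfl⟩ := (LinearMap.range f).mkQ_surjective q
      refine ⟨w + f (a - r w), ?_⟩
      apply Prod.ext
      · show r (w + f (a - r w)) = a
        rw [map_add, hr']; abel
      · show (LinearMap.range f).mkQ (w + f (a - r w)) = (LinearMap.range f).mkQ w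
        rw [map_add]
        have : (LinearMap.range f).mkQ (f (a - r w)) = 0 := by
          rw [Submodule.mkQ_apply, Submodule.Quotient.mk_eq_zero]
          exact ⟨_, rfl⟩
        rw [this, add_zero]
    · intro a
      apply Prod.ext
      · exact hr' a
      · show (LinearMap.range f).mkQ (f a) = 0
        rw [Submodule.mkQ_apply, Submodule.Quotient.mk_eq_zero]
        exact ⟨_, rfl⟩
  obtain ⟨e, he⟩ := key f hf
  obtain ⟨e', he'⟩ := key f' hf'
  obtain ⟨q⟩ := nonempty_linearEquiv_of_rank_eq h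
  refine ⟨(e.trans ((LinearEquiv.refl F A).prodCongr q)).trans e'.symm, fun a => ?_⟩
  rw [LinearEquiv.trans_apply, LinearEquiv.trans_apply, he, LinearEquiv.symm_apply_eq, he']
  simp

/-- Two surjective maps whose kernels have the same dimension differ by an automorphism. -/
theorem exists_lift {C : Type v} [AddCommGroup C] [Module F C] (f f' : V →ₗ[F] C)
    (hf : Function.Surjective f) (hf' : Function.Surjective f')
    (h : Module.rank F (LinearMap.ker f) = Module.rank F (LinearMap.ker f')) :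
    ∃ g : V ≃ₗ[F] V, ∀ v, f' (g v) = f v := by
  have key : ∀ f : V →ₗ[F] C, Function.Surjective f → ∃ e : (LinearMap.ker f × C) ≃ₗ[F] V,
      ∀ x, f (e x) = x.2 := by
    intro f hf
    obtain ⟨s, hs⟩ := f.exists_rightInverse_of_surjective (LinearMap.range_eq_top.mpr hf)
    have hs' : ∀ c, f (s c) = c := fun c => DFunLike.congr_fun hs c
    refine ⟨LinearEquiv.ofBijective ((LinearMap.ker f).subtype.coprod s) ⟨?_, ?_⟩, ?_⟩
    · rw [← LinearMap.ker_eq_bot, LinearMap.ker_eq_bot']
      rintro ⟨k, c⟩ hm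
      rw [LinearMap.coprod_apply, Submodule.subtype_apply] at hm
      have h1 : f ((k : V) + s c) = 0 := by rw [hm, map_zero]
      rw [map_add, hs', LinearMap.mem_ker.mp k.2, zero_add] at h1
      subst h1
      rw [map_zero, add_zero] at hm
      have : k = 0 := Subtype.ext hm
      rw [this]; rfl
    · intro v
      refine ⟨(⟨v - s (f v), ?_⟩, f v), ?_⟩
      · rw [LinearMap.mem_ker, map_sub, hs', sub_self]
      · rw [LinearMap.coprod_apply, Submodule.subtype_apply]
        exact sub_add_cancel v (s (f v))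
    · rintro ⟨k, c⟩
      show f ((LinearMap.ker f).subtype.coprod s (k, c)) = c
      rw [LinearMap.coprod_apply, Submodule.subtype_apply, map_add, hs', LinearMap.mem_ker.mp k.2,
        zero_add]
  obtain ⟨e, he⟩ := key f hf
  obtain ⟨e', he'⟩ := key f' hf'
  obtain ⟨q⟩ := nonempty_linearEquiv_of_rank_eq h
  refine ⟨(e.symm.trans (q.prodCongr (LinearEquiv.refl F C))).trans e', fun v => ?_⟩
  rw [LinearEquiv.trans_apply, LinearEquiv.trans_apply, he']
  obtain ⟨x, rfl⟩ := e.surjective v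
  rw [LinearEquiv.symm_apply_apply, he]
  rfl

theorem rank_quot_of_disjoint (hV : ℵ₀ ≤ Module.rank F V) {X Y : Submodule F V}
    (hXY : Disjoint X Y) (h : Module.rank F X ≤ Module.rank F Y) :
    Module.rank F (V ⧸ X) = Module.rank F V := by
  have h1 : Module.rank F Y ≤ Module.rank F (V ⧸ X) := by
    apply LinearMap.rank_le_of_injective (X.mkQ.comp Y.subtype)
    rw [← LinearMap.ker_eq_bot, LinearMap.ker_eq_bot']
    intro y hy
    rw [LinearMap.comp_apply, Submodule.mkQ_apply, Submodule.Quotient.mk_eq_zero] at hy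
    have : (y : V) ∈ X ⊓ Y := ⟨hy, y.2⟩
    rw [hXY.eq_bot, Submodule.mem_bot] at this
    exact Subtype.ext this
  have h2 := Submodule.rank_quotient_add_rank X
  have h3 : Module.rank F V ≤ Module.rank F (V ⧸ X) + Module.rank F (V ⧸ X) := by
    rw [← h2]
    exact add_le_add_right (h.trans h1) _
  have h4 : ℵ₀ ≤ Module.rank F (V ⧸ X) := by
    by_contra hcon
    push Not at hcon
    exact absurd (hV.trans h3) (not_le.mpr (add_lt_aleph0 hcon hcon))
  rw [add_eq_self h4] at h3
  exact le_antisymm (rank_quotient_le X) h3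

theorem rank_quot_of_lt (hV : ℵ₀ ≤ Module.rank F V) {X : Submodule F V}
    (h : Module.rank F X < Module.rank F V) :
    Module.rank F (V ⧸ X) = Module.rank F V := by
  have h2 := Submodule.rank_quotient_add_rank X
  rcases le_or_gt (Module.rank F (V ⧸ X)) (Module.rank F X) with h3 | h3
  · exfalso
    have h4 : Module.rank F V ≤ Module.rank F X + Module.rank F X := by
      rw [← h2]; exact add_le_add_left h3 _
    have h5 : ℵ₀ ≤ Module.rank F X := by
      by_contra hcon
      push Not at hcon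
      exact absurd (hV.trans h4) (not_le.mpr (add_lt_aleph0 hcon hcon))
    rw [add_eq_self h5] at h4
    exact absurd h4 (not_le.mpr h)
  · have h4 : Module.rank F V ≤ Module.rank F (V ⧸ X) + Module.rank F (V ⧸ X) := by
      rw [← h2]; exact add_le_add_right h3.le _
    have h5 : ℵ₀ ≤ Module.rank F (V ⧸ X) := by
      by_contra hcon
      push Not at hcon
      exact absurd (hV.trans h4) (not_le.mpr (add_lt_aleph0 hcon hcon))
    rw [add_eq_self h5] at h4
    exact le_antisymm (rank_quotient_le X) h4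

/-- An infinite-dimensional subspace is the direct sum of two subspaces of the same dimension. -/
theorem exists_halves (W : Submodule F V) (hW : ℵ₀ ≤ Module.rank F W) :
    ∃ P Q : Submodule F V, P ≤ W ∧ Q ≤ W ∧ Disjoint P Q ∧ P ⊔ Q = W ∧
      Module.rank F P = Module.rank F W ∧ Module.rank F Q = Module.rank F W := by
  have h : Module.rank F (W × W) = Module.rank F W := by
    rw [rank_prod', add_eq_self hW]
  obtain ⟨e⟩ := nonempty_linearEquiv_of_rank_eq h
  let i1 : W →ₗ[F] V := W.subtype.comp (e.toLinearMap.comp (LinearMap.inl F W W))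
  let i2 : W →ₗ[F] V := W.subtype.comp (e.toLinearMap.comp (LinearMap.inr F W W))
  have hi1 : Function.Injective i1 :=
    Subtype.val_injective.comp (e.injective.comp LinearMap.inl_injective)
  have hi2 : Function.Injective i2 :=
    Subtype.val_injective.comp (e.injective.comp LinearMap.inr_injective)
  refine ⟨LinearMap.range i1, LinearMap.range i2, ?_, ?_, ?_, ?_, ?_, ?_⟩
  · rintro _ ⟨x, rfl⟩; exact (e (x, 0)).2
  · rintro _ ⟨x, rfl⟩; exact (e (0, x)).2
  · rw [Submodule.disjoint_def]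
    rintro _ ⟨x, rfl⟩ ⟨y, hy⟩
    have h1 : (0, y) = (x, (0 : W)) := e.injective (Subtype.ext hy)
    have h2 : x = 0 := (congrArg Prod.fst h1).symm
    rw [h2, map_zero]
  · apply le_antisymm
    · apply sup_le
      · rintro _ ⟨x, rfl⟩; exact (e (x, 0)).2
      · rintro _ ⟨x, rfl⟩; exact (e (0, x)).2
    · intro w hw
      obtain ⟨⟨a, b⟩, hab⟩ := e.surjective ⟨w, hw⟩
      rw [Submodule.mem_sup]
      refine ⟨i1 a, ⟨a, rfl⟩, i2 b, ⟨b, rfl⟩, ?_⟩
      show ((e (a, 0) : W) : V) + ((e (0, b) : W) : V) = w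
      rw [← Submodule.coe_add, ← map_add, Prod.mk_add_mk, add_zero, zero_add, hab]
  · exact (LinearEquiv.ofInjective i1 hi1).rank_eq.symm
  · exact (LinearEquiv.ofInjective i2 hi2).rank_eq.symm

end Pool.Agent.V1116.GLTrans
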