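import Mathlib

/-!
# A Helly type lemma for homomorphisms from a finitely generated abelian group

The target is the Prüfer group `ℚ / ℤ_(p)`.
-/

namespace Pool.Agent.V1116.HellyCore

/-! ### The Prüfer group -/

/-- The subgroup `ℤ_(p)` of `ℚ`. -/
def Zp (p : ℕ) [hp : Fact p.Prime] : AddSubgroup ℚ where
  carrier := {q | ¬ p ∣ q.den}
  zero_mem' := by
    show ¬ p ∣ (0 : ℚ).den
    rw [Rat.den_zero]
    exact hp.out.one_lt.ne' ∘ Nat.dvd_one.mp
  add_mem' := by
    intro a b ha hb h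
    have h1 := dvd_trans h (Rat.add_den_dvd a b)
    rcases hp.out.dvd_mul.mp h1 with h2 | h2
    · exact ha h2
    · exact hb h2
  neg_mem' := by
    intro a ha
    show ¬ p ∣ (-a).den
    rw [Rat.neg_den]
    exact ha

/-- The Prüfer group `ℚ / ℤ_(p)`. -/
abbrev Dp (p : ℕ) [Fact p.Prime] : Type := ℚ ⧸ Zp p

variable {p : ℕ} [hp : Fact p.Prime]

theorem baer_Dp : Module.Baer ℤ (Dp p) := by
  have : DivisibleBy (Dp p) ℤ := Function.Surjective.divisibleBy (α := ℤ)
    (QuotientAddGroup.mk' (Zp p)) (QuotientAddGroup.mk'_surjective _) fun a n => by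
      rw [map_zsmul]
  exact Module.Baer.of_divisible _

theorem mk_eq_zero {q : ℚ} : (QuotientAddGroup.mk q : Dp p) = 0 ↔ ¬ p ∣ q.den :=
  QuotientAddGroup.eq_zero_iff q

theorem mul_coprime_mem (q : ℚ) {b : ℕ} (hb : ¬ p ∣ b) {k : ℕ} (h : q.den = p ^ k * b) :
    ¬ p ∣ ((p : ℚ) ^ k * q).den := by
  have hp0 : (p : ℚ) ≠ 0 := by exact_mod_cast hp.out.ne_zero
  have hb0 : b ≠ 0 := by rintro rfl; exact hb (dvd_zero p)
  have e : (p : ℚ) ^ k * q = (q.num : ℚ) / (b : ℤ) := by
    have h1 : q = q.num / (q.den : ℚ) := (Rat.num_div_den q).symm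
    have h2 : (b : ℚ) ≠ 0 := by exact_mod_cast hb0
    rw [eq_div_iff (by exact_mod_cast hb0)]
    have h3 : q * q.den = q.num := Rat.mul_den_eq_num q
    rw [h] at h3
    push_cast at h3
    rw [← h3]
    push_cast
    ring
  rw [e]
  intro h3
  have h4 : (((q.num : ℚ) / (b : ℤ)).den : ℤ) ∣ (b : ℤ) := by
    have := Rat.den_dvd q.num b
    rwa [Rat.divInt_eq_div] at this
  have h5 : ((q.num : ℚ) / (b : ℤ)).den ∣ b := by exact_mod_cast h4
  exact hb (dvd_trans h3 h5)

theorem torsion_Dp (d : Dp p) : ∃ k : ℕ, ((p : ℤ) ^ k) • d = 0 := by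
  obtain ⟨q, rfl⟩ := QuotientAddGroup.mk_surjective d
  obtain ⟨k, b, hb, h⟩ := Nat.exists_eq_pow_mul_and_not_dvd q.den_nz p hp.out.ne_one
  refine ⟨k, ?_⟩
  have h1 : ((p : ℤ) ^ k) • (QuotientAddGroup.mk q : Dp p) =
      QuotientAddGroup.mk (((p : ℤ) ^ k) • q) := rfl
  rw [h1, mk_eq_zero]
  have h2 : ((p : ℤ) ^ k) • q = (p : ℚ) ^ k * q := by
    rw [zsmul_eq_mul]; push_cast; ring
  rw [h2]
  exact mul_coprime_mem q hb h

/-- Elements annihilated by an integer prime to `p` vanish. -/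
theorem eq_zero_of_smul {d : Dp p} {a : ℤ} (ha : ¬ (p : ℤ) ∣ a) (h : a • d = 0) : d = 0 := by
  obtain ⟨k, hk⟩ := torsion_Dp d
  have hcop : IsCoprime a ((p : ℤ) ^ k) := by
    apply IsCoprime.pow_right
    exact ((Nat.prime_iff_prime_int.mp hp.out).coprime_iff_not_dvd.mpr ha).symm
  obtain ⟨u, v, huv⟩ := hcop
  have : d = (u * a + v * (p : ℤ) ^ k) • d := by rw [huv, one_smul]
  rw [this, add_smul, mul_smul, mul_smul, h, hk, smul_zero, smul_zero, add_zero]

/-- Nonzero elements of abelian groups are detected by homomorphisms to Prüfer groups. -/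
theorem exists_hom {A : Type*} [AddCommGroup A] {a : A} (ha : a ≠ 0) :
    ∃ (p : ℕ) (_ : Fact p.Prime) (θ : A →+ Dp p), θ a ≠ 0 := by
  obtain ⟨c, hc⟩ := CharacterModule.exists_character_apply_ne_zero_of_ne_zero ha
  obtain ⟨q, hq⟩ := QuotientAddGroup.mk_surjective (c a)
  have hden : q.den ≠ 1 := by
    intro h1
    apply hc
    rw [← hq]
    have h2 : q = (q.num : ℚ) := by
      conv_lhs => rw [← Rat.num_div_den q, h1]
      simp
    have h3 : (QuotientAddGroup.mk q : AddCircle (1 : ℚ)) = 0 := by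
      rw [QuotientAddGroup.eq_zero_iff, AddSubgroup.mem_zmultiples_iff]
      exact ⟨q.num, by rw [zsmul_eq_mul, mul_one]; exact h2.symm⟩
    exact h3
  obtain ⟨p, hp, hpd⟩ := Nat.exists_prime_and_dvd hden
  have : Fact p.Prime := ⟨hp⟩
  have hle : AddSubgroup.zmultiples (1 : ℚ) ≤ (Zp p).comap (AddMonoidHom.id ℚ) := by
    rw [AddSubgroup.zmultiples_le]
    show ¬ p ∣ (1 : ℚ).den
    rw [Rat.den_one]
    exact hp.one_lt.ne' ∘ Nat.dvd_one.mp
  let π : AddCircle (1 : ℚ) →+ Dp p :=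
    QuotientAddGroup.map (AddSubgroup.zmultiples (1 : ℚ)) (Zp p) (AddMonoidHom.id ℚ) hle
  refine ⟨p, this, π.comp c, ?_⟩
  show π (c a) ≠ 0
  rw [← hq]
  show (QuotientAddGroup.mk q : Dp p) ≠ 0
  rw [Ne, mk_eq_zero, not_not]
  exact hpd

/-! ### Extending homomorphisms -/

/-- A homomorphism killing the kernel of `π : M → X` factors through `X`, for an injective
target. -/
theorem exists_factor {M X A : Type} [AddCommGroup M] [AddCommGroup X] [AddCommGroup A]
    (hA : Module.Baer ℤ A) (π : M →+ X) (f : M →+ A) (h : ∀ m, π m = 0 → f m = 0) :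
    ∃ x : X →+ A, ∀ m, x (π m) = f m := by
  have hker : π.ker ≤ f.ker := fun m hm => h m hm
  let g : M ⧸ π.ker →+ A := QuotientAddGroup.lift π.ker f hker
  let i : M ⧸ π.ker →+ X := QuotientAddGroup.kerLift π
  have hi : Function.Injective i := QuotientAddGroup.kerLift_injective π
  obtain ⟨x, hx⟩ := hA.extension_property_addMonoidHom i hi g
  refine ⟨x, fun m => ?_⟩
  exact DFunLike.congr_fun hx (QuotientAddGroup.mk m)

/-! ### The core lemma -/

/-- Among more than `m` vectors of `ℚᵐ` there is an integral relation with a coefficient prime to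
`p`. -/
theorem exists_relation {ι : Type*} [Fintype ι] {m : ℕ} (hcard : m < Fintype.card ι)
    (q : ι → Fin m → ℚ) : ∃ a : ι → ℤ, (∃ i, ¬ (p : ℤ) ∣ a i) ∧ ∀ j, ∑ i, (a i : ℚ) * q i j = 0 := by
  classical
  have hne : Nonempty ι := Fintype.card_pos_iff.mp (by omega)
  have hdep : ¬ LinearIndependent ℚ q := by
    intro h
    have := h.fintype_card_le_finrank
    rw [Module.finrank_fin_fun] at this
    omega
  rw [Fintype.not_linearIndependent_iff] at hdep
  obtain ⟨c, hc, i₀, hi₀⟩ := hdep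
  -- clear denominators
  set N : ℕ := ∏ i, (c i).den with hN
  have hN0 : N ≠ 0 := Finset.prod_ne_zero_iff.mpr fun i _ => (c i).den_nz
  have hint : ∀ i, ∃ z : ℤ, (z : ℚ) = N * c i := by
    intro i
    have h1 : (c i).den ∣ N := Finset.dvd_prod_of_mem _ (Finset.mem_univ i)
    obtain ⟨t, ht⟩ := h1
    refine ⟨t * (c i).num, ?_⟩
    rw [ht]
    push_cast
    have h3 : c i * (c i).den = (c i).num := Rat.mul_den_eq_num (c i)
    rw [← h3]
    ring
  choose z hz using hint
  obtain ⟨g, hg1, hg2⟩ := Finset.extract_gcd z (Finset.univ_nonempty (α := ι))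
  have hgcd : Finset.univ.gcd z ≠ 0 := by
    intro h0
    rw [Finset.gcd_eq_zero_iff] at h0
    have h1 := hz i₀
    rw [h0 i₀ (Finset.mem_univ _)] at h1
    have h2 : (N : ℚ) * c i₀ = 0 := by rw [← h1]; simp
    rcases mul_eq_zero.mp h2 with h3 | h3
    · exact hN0 (by exact_mod_cast h3)
    · exact hi₀ h3
  refine ⟨g, ?_, ?_⟩
  · by_contra hcon
    push Not at hcon
    have h1 : (p : ℤ) ∣ Finset.univ.gcd g := Finset.dvd_gcd fun i _ => hcon i
    rw [hg2] at h1
    have := (Nat.prime_iff_prime_int.mp hp.out).not_isUnit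
    exact this (isUnit_of_dvd_one h1)
  · intro j
    have h1 : ((Finset.univ.gcd z : ℤ) : ℚ) * ∑ i, (g i : ℚ) * q i j = 0 := by
      rw [Finset.mul_sum]
      have h2 : ∀ i ∈ Finset.univ, ((Finset.univ.gcd z : ℤ) : ℚ) * ((g i : ℚ) * q i j) =
          N * (c i * q i j) := by
        intro i hi
        have h3 : (z i : ℚ) = (Finset.univ.gcd z : ℤ) * g i := by
          exact_mod_cast hg1 i hi
        rw [← mul_assoc, ← h3, hz]
        ring
      rw [Finset.sum_congr rfl h2, ← Finset.mul_sum]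
      have h4 := congrFun hc j
      rw [Finset.sum_apply] at h4
      have h5 : ∑ i, c i * q i j = 0 := h4
      rw [h5, mul_zero]
    rcases mul_eq_zero.mp h1 with h2 | h2
    · exact absurd (by exact_mod_cast h2) hgcd
    · exact h2

/-- **Core lemma.** Let `X` be generated by `m` elements, and let `x_i : X → ℚ/ℤ_(p)` be more than
`m + 1` homomorphisms such that on the set `Λ_k` all `x_i` with `i ≠ k` agree. Then for some `i`,
on each `Λ_k` the homomorphism `x_i` agrees with all `x_j`, `j ≠ k`. -/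
theorem core {X : Type} [AddCommGroup X] {m : ℕ} (e : Fin m → X)
    (he : AddSubgroup.closure (Set.range e) = ⊤) {ι : Type} [Fintype ι]
    (hcard : m + 1 < Fintype.card ι) (Λ : ι → Set X) (x : ι → X →+ Dp p)
    (hx : ∀ i j k, i ≠ k → j ≠ k → ∀ z ∈ Λ k, x i z = x j z) :
    ∃ i, ∀ k j, j ≠ k → ∀ z ∈ Λ k, x i z = x j z := by
  classical
  have hne : Nonempty ι := Fintype.card_pos_iff.mp (by omega)
  obtain ⟨r⟩ := hne
  have hlift : ∀ (i : ι) (j : Fin m), ∃ q : ℚ, (QuotientAddGroup.mk q : Dp p) =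
      x i (e j) - x r (e j) := fun i j => QuotientAddGroup.mk_surjective _
  choose q hq using hlift
  have hcard' : m < Fintype.card {i // i ≠ r} := by
    rw [Fintype.card_subtype_compl, Fintype.card_subtype_eq]
    omega
  obtain ⟨a, ⟨i₀, hi₀⟩, ha⟩ := exists_relation (p := p) hcard' (fun i j => q i.1 j)
  -- the relation between the homomorphisms
  have hrel : ∀ z : X, ∑ i : {i // i ≠ r}, a i • (x i.1 z - x r z) = 0 := by
    have h1 : (∑ i : {i // i ≠ r}, a i • (x i.1 - x r)) = (0 : X →+ Dp p) := by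
      apply AddMonoidHom.eq_of_eqOn_dense he
      rintro _ ⟨j, rfl⟩
      rw [AddMonoidHom.finsetSum_apply]
      have h2 : ∀ i : {i // i ≠ r}, (a i • (x i.1 - x r)) (e j) =
          (QuotientAddGroup.mk ((a i : ℚ) * q i.1 j) : Dp p) := by
        intro i
        have h3 : (a i • (x i.1 - x r)) (e j) = a i • (x i.1 (e j) - x r (e j)) := rfl
        rw [h3, ← hq, ← zsmul_eq_mul]
        rfl
      rw [Finset.sum_congr rfl fun i _ => h2 i]
      have h4 : ∑ i : {i // i ≠ r}, (QuotientAddGroup.mk ((a i : ℚ) * q i.1 j) : Dp p) =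
          QuotientAddGroup.mk (∑ i : {i // i ≠ r}, (a i : ℚ) * q i.1 j) :=
        (map_sum (QuotientAddGroup.mk' (Zp p)) _ _).symm
      rw [h4, ha j]
      rfl
    intro z
    have h2 := DFunLike.congr_fun h1 z
    rw [AddMonoidHom.finsetSum_apply] at h2
    exact h2
  refine ⟨i₀.1, ?_⟩
  have hmain : ∀ z ∈ Λ i₀.1, x i₀.1 z = x r z := by
    intro z hz
    have h1 := hrel z
    rw [Finset.sum_eq_single i₀] at h1
    · have h2 := eq_zero_of_smul hi₀ h1
      exact sub_eq_zero.mp h2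
    · intro i _ hi
      have hi' : i.1 ≠ i₀.1 := fun h => hi (Subtype.ext h)
      rw [hx i.1 r i₀.1 hi' (Ne.symm i₀.2) z hz, sub_self, smul_zero]
    · intro h
      exact absurd (Finset.mem_univ _) h
  intro k j hjk z hz
  by_cases hk : k = i₀.1
  · subst hk
    rw [hmain z hz]
    exact hx r j _ (Ne.symm i₀.2) hjk z hz
  · exact hx i₀.1 j k (Ne.symm hk) hjk z hz

end Pool.Agent.V1116.HellyCore
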