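import Mathlib
import Pool.Agent.V1116.HellyCore

/-!
# Closed subgroups of tori, their characters, and compatible families of cosets
-/

open Pool.Agent.V1116.HellyCore

namespace Pool.Agent.V1116.HellyTorus

/-! ### Compatible families -/

/-- The homomorphisms `c i`, `i ∈ J`, have a common extension to `X`. -/
def Compat {X A : Type} [AddCommGroup X] [AddCommGroup A] {ι : Type} (Λ : ι → AddSubgroup X)
    (c : ∀ i, Λ i →+ A) (J : Finset ι) : Prop :=
  ∃ x : X →+ A, ∀ i ∈ J, ∀ z : Λ i, x z = c i z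

theorem compat_all {X A : Type} [AddCommGroup X] [AddCommGroup A] (hA : Module.Baer ℤ A) {m : ℕ}
    (e : Fin m → X) (he : AddSubgroup.closure (Set.range e) = ⊤) {ι : Type}
    (Λ : ι → AddSubgroup X) (c : ∀ i, Λ i →+ A)
    (h : ∀ J : Finset ι, J.card ≤ m + 1 → Compat Λ c J) : ∀ J, Compat Λ c J := by
  classical
  intro J
  induction hn : J.card using Nat.strong_induction_on generalizing J with
  | _ n ih =>
  by_cases hJ : J.card ≤ m + 1
  · exact h J hJ
  push Not at hJ
  by_contra hcon
  have hx : ∀ i : J, ∃ x : X →+ A, ∀ k ∈ J.erase i, ∀ z : Λ k, x z = c k z := by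
    intro i
    have h1 : (J.erase i).card < n := by
      rw [← hn]
      exact Finset.card_erase_lt_of_mem i.2
    exact ih _ h1 _ rfl
  choose x hx using hx
  -- a relation
  let M := ∀ i : J, Λ i.1
  let π : M →+ X :=
    { toFun := fun ρ => ∑ i, ((ρ i : Λ i.1) : X)
      map_zero' := by
        show ∑ i : J, (((0 : M) i : Λ i.1) : X) = 0
        exact Finset.sum_eq_zero fun i _ => rfl
      map_add' := fun ρ ρ' => by
        rw [← Finset.sum_add_distrib]
        rfl }
  let f : M →+ A :=
    { toFun := fun ρ => ∑ i, c i.1 (ρ i)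
      map_zero' := by
        show ∑ i : J, c i.1 ((0 : M) i) = 0
        exact Finset.sum_eq_zero fun i _ => map_zero _
      map_add' := fun ρ ρ' => by
        rw [← Finset.sum_add_distrib]
        exact Finset.sum_congr rfl fun i _ => map_add _ _ _ }
  obtain ⟨ρ, hρ1, hρ2⟩ : ∃ ρ, π ρ = 0 ∧ f ρ ≠ 0 := by
    by_contra hcon'
    push Not at hcon'
    obtain ⟨y, hy⟩ := exists_factor hA π f hcon'
    apply hcon
    refine ⟨y, fun i hi z => ?_⟩
    have h1 := hy (Pi.single (⟨i, hi⟩ : J) z)
    have h2 : π (Pi.single (⟨i, hi⟩ : J) z) = z := by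
      show ∑ k : J, ((Pi.single (M := fun k : J => Λ k.1) (⟨i, hi⟩ : J) z k : Λ k.1) : X) = z
      rw [Finset.sum_eq_single (⟨i, hi⟩ : J)]
      · rw [Pi.single_eq_same]
      · intro k _ hk
        rw [Pi.single_eq_of_ne hk]
        rfl
      · intro h'
        exact absurd (Finset.mem_univ _) h'
    have h3 : f (Pi.single (⟨i, hi⟩ : J) z) = c i z := by
      show ∑ k : J, c k.1 (Pi.single (M := fun k : J => Λ k.1) (⟨i, hi⟩ : J) z k) = c i z
      rw [Finset.sum_eq_single (⟨i, hi⟩ : J)]
      · rw [Pi.single_eq_same]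
      · intro k _ hk
        rw [Pi.single_eq_of_ne hk, map_zero]
      · intro h'
        exact absurd (Finset.mem_univ _) h'
    rw [h2, h3] at h1
    exact h1
  obtain ⟨p, hp, θ, hθ⟩ := exists_hom hρ2
  obtain ⟨i, hi⟩ := core e he (ι := J) (by rw [Fintype.card_coe]; exact hJ)
    (fun k => (Λ k.1 : Set X)) (fun i => θ.comp (x i)) (by
      intro i j k hik hjk z hz
      show θ (x i z) = θ (x j z)
      rw [hx i k.1 (Finset.mem_erase.mpr ⟨fun h' => hik (Subtype.ext h'.symm), k.2⟩) ⟨z, hz⟩,
        hx j k.1 (Finset.mem_erase.mpr ⟨fun h' => hjk (Subtype.ext h'.symm), k.2⟩) ⟨z, hz⟩])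
  have hall : ∀ (k : J) (z : Λ k.1), θ (x i z) = θ (c k.1 z) := by
    intro k z
    obtain ⟨j, hj, hjk⟩ : ∃ j ∈ J, j ≠ k.1 := by
      by_contra hcon'
      push Not at hcon'
      have h1 : J ⊆ {k.1} := fun j hj => Finset.mem_singleton.mpr (hcon' j hj)
      have h2 := Finset.card_le_card h1
      rw [Finset.card_singleton] at h2
      omega
    have h1 := hi k ⟨j, hj⟩ (fun h' => hjk (congrArg Subtype.val h')) z z.2
    have h2 : θ (x i z) = θ (x ⟨j, hj⟩ z) := h1
    rw [h2, hx ⟨j, hj⟩ k.1 (Finset.mem_erase.mpr ⟨Ne.symm hjk, k.2⟩) z]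
  apply hθ
  have h1 : θ (f ρ) = ∑ k : J, θ (c k.1 (ρ k)) := map_sum θ _ _
  rw [h1, Finset.sum_congr rfl fun k _ => (hall k (ρ k)).symm, ← map_sum, ← map_sum]
  have h2 : ∑ k : J, ((ρ k : Λ k.1) : X) = 0 := hρ1
  rw [h2, map_zero, map_zero]

/-! ### Tori -/

/-- The diagonal group `(Kˣ)ᴺ`. -/
def T (K : Type) [Field K] (N : ℕ) : Type := Fin N → Kˣ

instance (K : Type) [Field K] (N : ℕ) : CommGroup (T K N) :=
  (Pi.commGroup : CommGroup (Fin N → Kˣ))

/-- The `i`-th coordinate of a point. -/
def T.coord {K : Type} [Field K] {N : ℕ} (t : T K N) (i : Fin N) : K := ((t i : Kˣ) : K)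

/-- The coordinates of a point and their inverses. -/
def T.coord₂ {K : Type} [Field K] {N : ℕ} (t : T K N) (j : Fin N ⊕ Fin N) : K :=
  Sum.elim (fun i => t.coord i) (fun i => t⁻¹.coord i) j

/-- Zariski closed subsets of `(Kˣ)ᴺ`. -/
def ZClosed {K : Type} [Field K] {N : ℕ} (Z : Set (T K N)) : Prop :=
  ∃ S : Set (MvPolynomial (Fin N) K), Z = {t | ∀ P ∈ S, MvPolynomial.eval t.coord P = 0}

/-- Homomorphisms `G → Kˣ`. -/
def Hm {K : Type} [Field K] {N : ℕ} (G : Subgroup (T K N)) : Type := G →* Kˣ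

instance {K : Type} [Field K] {N : ℕ} (G : Subgroup (T K N)) : CommGroup (Hm G) :=
  (MonoidHom.instCommGroup : CommGroup (G →* Kˣ))

/-- The homomorphism. -/
def Hm.hom {K : Type} [Field K] {N : ℕ} {G : Subgroup (T K N)} (χ : Hm G) : G →* Kˣ := χ

theorem Hm.ext {K : Type} [Field K] {N : ℕ} {G : Subgroup (T K N)} {χ ψ : Hm G}
    (h : ∀ g, χ.hom g = ψ.hom g) : χ = ψ :=
  MonoidHom.ext (f := (Hm.hom χ)) (g := Hm.hom ψ) h

/-- The value of a homomorphism, in `K`. -/
def Hm.val {K : Type} [Field K] {N : ℕ} {G : Subgroup (T K N)} (χ : Hm G) (g : G) : K :=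
  ((χ.hom g : Kˣ) : K)

/-- The homomorphism `χ : G → Kˣ` is a morphism of algebraic groups: it is given by a polynomial
in the coordinates and their inverses. -/
def IsRegular {K : Type} [Field K] {N : ℕ} {G : Subgroup (T K N)} (χ : Hm G) : Prop :=
  ∃ P : MvPolynomial (Fin N ⊕ Fin N) K, ∀ g : G, χ.val g = MvPolynomial.eval g.1.coord₂ P

theorem IsRegular.one {K : Type} [Field K] {N : ℕ} {G : Subgroup (T K N)} :
    IsRegular (1 : Hm G) := ⟨1, fun g => by
  rw [map_one]
  show (((1 : Kˣ)) : K) = 1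
  exact Units.val_one⟩

theorem IsRegular.mul {K : Type} [Field K] {N : ℕ} {G : Subgroup (T K N)} {χ ψ : Hm G}
    (hχ : IsRegular χ) (hψ : IsRegular ψ) : IsRegular (χ * ψ) := by
  obtain ⟨P, hP⟩ := hχ
  obtain ⟨Q, hQ⟩ := hψ
  refine ⟨P * Q, fun g => ?_⟩
  rw [map_mul, ← hP, ← hQ]
  show ((χ.hom g * ψ.hom g : Kˣ) : K) = _
  exact Units.val_mul _ _

theorem IsRegular.inv {K : Type} [Field K] {N : ℕ} {G : Subgroup (T K N)} {χ : Hm G}
    (hχ : IsRegular χ) : IsRegular χ⁻¹ := by
  obtain ⟨P, hP⟩ := hχ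
  refine ⟨MvPolynomial.rename Sum.swap P, fun g => ?_⟩
  rw [MvPolynomial.eval_rename]
  have h1 := hP g⁻¹
  have h2 : (χ⁻¹ : Hm G).val g = χ.val g⁻¹ := by
    show (((χ.hom g)⁻¹ : Kˣ) : K) = ((χ.hom g⁻¹ : Kˣ) : K)
    rw [map_inv]
  rw [h2, h1]
  congr 1
  congr 1
  funext i
  rcases i with i | i
  · rfl
  · show T.coord ((g : T K N)⁻¹)⁻¹ i = T.coord (g : T K N) i
    rw [inv_inv]

/-- The character group `X(G)`. -/
def charGroup {K : Type} [Field K] {N : ℕ} (G : Subgroup (T K N)) : Subgroup (Hm G) where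
  carrier := {χ | IsRegular χ}
  one_mem' := IsRegular.one
  mul_mem' := IsRegular.mul
  inv_mem' := IsRegular.inv

/-- The minimal number of generators of a group. -/
noncomputable def rk (X : Type) [Group X] : ℕ :=
  sInf {k | ∃ e : Fin k → X, Subgroup.closure (Set.range e) = ⊤}

section Torus

variable {K : Type} [Field K] {N : ℕ}

/-- Laurent monomials. -/
def mono (m : Fin N → ℤ) : T K N →* Kˣ where
  toFun t := ∏ i, t i ^ m i
  map_one' := Finset.prod_eq_one fun i _ => one_zpow _
  map_mul' s t := by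
    rw [← Finset.prod_mul_distrib]
    exact Finset.prod_congr rfl fun i _ => mul_zpow _ _ _

theorem mono_apply (m : Fin N → ℤ) (t : T K N) : mono m t = ∏ i, t i ^ m i := rfl

/-- Grouping of equal characters (Dedekind). -/
theorem dedekind {H σ : Type} [Monoid H] (s : Finset σ) (c : σ → K) (f : σ → H →* K) (χ : H →* K)
    (d : K) (h : ∀ x, ∑ i ∈ s, c i * f i x = d * χ x) (τ : (H →* K) → K) :
    ∑ i ∈ s, c i * τ (f i) = d * τ χ := by
  have hli := linearIndependent_monoidHom H K
  rw [linearIndependent_iff] at hli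
  have h1 : (∑ i ∈ s, Finsupp.single (f i) (c i)) - Finsupp.single χ d = 0 := by
    apply hli
    rw [map_sub, map_sum]
    simp only [Finsupp.linearCombination_single]
    rw [sub_eq_zero]
    funext x
    rw [Finset.sum_apply]
    exact h x
  have h2 := congrArg (Finsupp.linearCombination K τ) (sub_eq_zero.mp h1)
  rw [map_sum, Finsupp.linearCombination_single] at h2
  simp only [Finsupp.linearCombination_single, smul_eq_mul] at h2
  exact h2

/-- Monomials with natural exponents, restricted to a subgroup. -/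
def monoN (H : Subgroup (T K N)) (s : Fin N →₀ ℕ) : H →* K :=
  (Units.coeHom K).comp ((mono fun i => (s i : ℤ)).comp H.subtype)

theorem monoN_apply (H : Subgroup (T K N)) (s : Fin N →₀ ℕ) (h : H) :
    monoN H s h = ((mono (fun i => (s i : ℤ)) (h : T K N) : Kˣ) : K) := rfl

theorem eval_eq_mono (P : MvPolynomial (Fin N) K) (t : T K N) :
    MvPolynomial.eval t.coord P =
      ∑ s ∈ P.support, P.coeff s * ((mono (fun i => (s i : ℤ)) t : Kˣ) : K) := by
  rw [MvPolynomial.eval_eq']
  refine Finset.sum_congr rfl fun s _ => ?_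
  rw [mono_apply]
  push_cast
  simp only [zpow_natCast, T.coord]

/-- Closed subgroups are cut out by characters. -/
theorem mem_of_mono {H : Subgroup (T K N)} (hH : ZClosed (H : Set (T K N))) {t : T K N}
    (ht : ∀ m : Fin N → ℤ, (∀ h ∈ H, mono m h = 1) → mono m t = 1) : t ∈ H := by
  classical
  obtain ⟨S, hS⟩ := hH
  have : t ∈ (H : Set (T K N)) := by
    rw [hS]
    intro P hP
    rw [eval_eq_mono]
    -- the value at `t` only depends on the restriction to `H`
    have hwd : ∀ s s' : Fin N →₀ ℕ, monoN H s = monoN H s' →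
        mono (fun i => (s i : ℤ)) t = mono (fun i => (s' i : ℤ)) t := by
      intro s s' hss
      have h1 : mono (fun i => (s i : ℤ) - (s' i : ℤ)) t = 1 := by
        apply ht
        intro h hh
        have h2 := DFunLike.congr_fun hss ⟨h, hh⟩
        rw [monoN_apply, monoN_apply] at h2
        have h3 := Units.ext h2
        rw [mono_apply, mono_apply] at h3
        rw [mono_apply]
        simp only [zpow_sub, Finset.prod_mul_distrib, Finset.prod_inv_distrib]
        rw [mul_inv_eq_one]
        exact h3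
      rw [mono_apply] at h1
      simp only [zpow_sub, Finset.prod_mul_distrib, Finset.prod_inv_distrib] at h1
      rw [mul_inv_eq_one] at h1
      exact h1
    let τ : (H →* K) → K := fun f =>
      if hf : ∃ s : Fin N →₀ ℕ, monoN H s = f then
        ((mono (fun i => (hf.choose i : ℤ)) t : Kˣ) : K) else 0
    have hτ : ∀ s, τ (monoN H s) = ((mono (fun i => (s i : ℤ)) t : Kˣ) : K) := by
      intro s
      have hf : ∃ s' : Fin N →₀ ℕ, monoN H s' = monoN H s := ⟨s, rfl⟩
      show (if hf : ∃ s' : Fin N →₀ ℕ, monoN H s' = monoN H s then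
        ((mono (fun i => (hf.choose i : ℤ)) t : Kˣ) : K) else 0) = _
      rw [dif_pos hf, hwd _ _ hf.choose_spec]
    have h1 := dedekind P.support (fun s => P.coeff s) (monoN H) 1 0 (by
      intro x
      rw [zero_mul]
      have h2 : (x : T K N) ∈ {t : T K N | ∀ P ∈ S, MvPolynomial.eval t.coord P = 0} := by
        rw [← hS]; exact x.2
      have h3 := h2 P hP
      rw [eval_eq_mono] at h3
      exact h3) τ
    rw [zero_mul] at h1
    rw [← h1]
    exact Finset.sum_congr rfl fun s _ => by rw [hτ]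
  exact this

/-- Regular characters are restrictions of monomials. -/
theorem exists_mono {G : Subgroup (T K N)} {χ : Hm G} (hχ : IsRegular χ) :
    ∃ m : Fin N → ℤ, ∀ g : G, χ.hom g = mono m (g : T K N) := by
  classical
  obtain ⟨P, hP⟩ := hχ
  let f : ((Fin N ⊕ Fin N) →₀ ℕ) → G →* K := fun s =>
    (Units.coeHom K).comp ((mono fun i => (s (Sum.inl i) : ℤ) - (s (Sum.inr i) : ℤ)).comp G.subtype)
  let χ' : G →* K := (Units.coeHom K).comp χ.hom
  have h1 := dedekind P.support (fun s => P.coeff s) f χ' 1 (by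
    intro g
    rw [one_mul]
    show _ = χ.val g
    rw [hP g, MvPolynomial.eval_eq']
    refine Finset.sum_congr rfl fun s _ => ?_
    congr 1
    rw [Fintype.prod_sum_type]
    show ((mono (fun i => (s (Sum.inl i) : ℤ) - (s (Sum.inr i) : ℤ)) (g : T K N) : Kˣ) : K) = _
    rw [mono_apply]
    simp only [zpow_sub, Finset.prod_mul_distrib, zpow_natCast]
    push_cast
    have e1 : ∀ i, T.coord₂ (g : T K N) (Sum.inl i) = (((g : T K N) i : Kˣ) : K) := fun _ => rfl
    have e2 : ∀ i, T.coord₂ (g : T K N) (Sum.inr i) = ((((g : T K N) i)⁻¹ : Kˣ) : K) :=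
      fun _ => rfl
    simp only [e1, e2, Units.val_inv_eq_inv_val, inv_pow]) (fun ψ => if ψ = χ' then 1 else 0)
  rw [if_pos rfl, one_mul] at h1
  obtain ⟨s, hs⟩ : ∃ s, f s = χ' := by
    by_contra hcon
    push Not at hcon
    have h2 : ∑ s ∈ P.support, P.coeff s * (if f s = χ' then (1 : K) else 0) = 0 :=
      Finset.sum_eq_zero fun s _ => by rw [if_neg (hcon s), mul_zero]
    rw [h2] at h1
    exact zero_ne_one h1
  refine ⟨fun i => (s (Sum.inl i) : ℤ) - (s (Sum.inr i) : ℤ), fun g => ?_⟩
  have h2 := DFunLike.congr_fun hs g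
  exact (Units.ext h2).symm

/-- The restriction of a monomial to `G`. -/
def resm (G : Subgroup (T K N)) (m : Fin N → ℤ) : Hm G := (mono m).comp G.subtype

theorem resm_apply (G : Subgroup (T K N)) (m : Fin N → ℤ) (g : G) :
    (resm G m).hom g = mono m (g : T K N) := rfl

/-- The restriction of a monomial to `G`, as an element of the character group. -/
def res (G : Subgroup (T K N)) (m : Fin N → ℤ) : charGroup G :=
  ⟨resm G m, by
    refine ⟨∏ i, (MvPolynomial.X (Sum.inl i) ^ (m i).toNat *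
      MvPolynomial.X (Sum.inr i) ^ (-m i).toNat), fun g => ?_⟩
    rw [map_prod]
    show ((mono m (g : T K N) : Kˣ) : K) = _
    rw [mono_apply]
    push_cast
    refine Finset.prod_congr rfl fun i _ => ?_
    rw [map_mul, map_pow, map_pow, MvPolynomial.eval_X, MvPolynomial.eval_X]
    have e1 : T.coord₂ (g : T K N) (Sum.inl i) = (((g : T K N) i : Kˣ) : K) := rfl
    have e2 : T.coord₂ (g : T K N) (Sum.inr i) = ((((g : T K N) i)⁻¹ : Kˣ) : K) := rfl
    rw [e1, e2, Units.val_inv_eq_inv_val]
    rcases le_or_gt 0 (m i) with h | h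
    · have h1 : (-m i).toNat = 0 := Int.toNat_eq_zero.mpr (by omega)
      rw [h1, pow_zero, mul_one]
      conv_lhs => rw [← Int.toNat_of_nonneg h]
      rw [zpow_natCast]
    · have h1 : (m i).toNat = 0 := Int.toNat_eq_zero.mpr (by omega)
      rw [h1, pow_zero, one_mul]
      have h2 : m i = -((-m i).toNat : ℤ) := by omega
      conv_lhs => rw [h2]
      rw [zpow_neg, zpow_natCast, inv_pow]⟩

theorem res_apply (G : Subgroup (T K N)) (m : Fin N → ℤ) (g : G) :
    (res G m : Hm G).hom g = mono m (g : T K N) := rfl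

theorem res_surj (G : Subgroup (T K N)) (χ : charGroup G) : ∃ m, res G m = χ := by
  obtain ⟨m, hm⟩ := exists_mono χ.2
  refine ⟨m, ?_⟩
  apply Subtype.ext
  apply Hm.ext
  intro g
  rw [hm g]
  rfl

/-- Restriction as a homomorphism. -/
def resHom (G : Subgroup (T K N)) : Multiplicative (Fin N → ℤ) →* charGroup G where
  toFun m := res G m.toAdd
  map_one' := by
    apply Subtype.ext
    apply Hm.ext
    intro g
    show mono (0 : Fin N → ℤ) (g : T K N) = 1
    rw [mono_apply]
    simp
  map_mul' m m' := by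
    apply Subtype.ext
    apply Hm.ext
    intro g
    show mono (m.toAdd + m'.toAdd) (g : T K N) = mono m.toAdd (g : T K N) * mono m'.toAdd (g : T K N)
    rw [mono_apply, mono_apply, mono_apply, ← Finset.prod_mul_distrib]
    exact Finset.prod_congr rfl fun i _ => zpow_add _ _ _

/-- The character group is finitely generated. -/
theorem charGroup_fg (G : Subgroup (T K N)) :
    ∃ e : Fin N → charGroup G, Subgroup.closure (Set.range e) = ⊤ := by
  refine ⟨fun i => resHom G (Multiplicative.ofAdd (Pi.single i 1)), ?_⟩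
  rw [eq_top_iff]
  intro χ _
  obtain ⟨m, rfl⟩ := res_surj G χ
  have h1 : res G m = resHom G (Multiplicative.ofAdd m) := rfl
  have h2 : Multiplicative.ofAdd m = ∏ i, (Multiplicative.ofAdd (Pi.single i (1 : ℤ) :
      Fin N → ℤ)) ^ (m i) := by
    apply Multiplicative.toAdd.injective
    show m = Multiplicative.toAdd (∏ i, (Multiplicative.ofAdd (Pi.single i (1 : ℤ) :
      Fin N → ℤ)) ^ (m i))
    rw [toAdd_prod]
    funext j
    rw [Finset.sum_apply, Finset.sum_eq_single j]
    · simp
    · intro i _ hi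
      simp [Pi.single_eq_of_ne (Ne.symm hi)]
    · intro h
      exact absurd (Finset.mem_univ _) h
  rw [h1, h2, map_prod]
  refine Subgroup.prod_mem _ fun i _ => ?_
  rw [map_zpow]
  refine Subgroup.zpow_mem _ ?_ _
  exact Subgroup.subset_closure ⟨i, rfl⟩

theorem rk_spec (G : Subgroup (T K N)) :
    ∃ e : Fin (rk (charGroup G)) → charGroup G, Subgroup.closure (Set.range e) = ⊤ := by
  have hne : {k | ∃ e : Fin k → charGroup G, Subgroup.closure (Set.range e) = ⊤}.Nonempty :=
    ⟨N, charGroup_fg G⟩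
  exact Nat.sInf_mem hne

/-- The additive group of units of an algebraically closed field is injective. -/
theorem baer_units (K : Type) [Field K] [IsAlgClosed K] : Module.Baer ℤ (Additive Kˣ) := by
  have : DivisibleBy (Additive Kˣ) ℤ := divisibleByOfSMulRightSurj _ _ fun {n} hn a => by
    have key : ∀ (k : ℕ), 0 < k → ∀ u : Kˣ, ∃ v : Kˣ, v ^ k = u := by
      intro k hk u
      obtain ⟨z, hz⟩ := IsAlgClosed.exists_pow_nat_eq (u : K) hk
      have hz0 : z ≠ 0 := by
        rintro rfl
        rw [zero_pow hk.ne'] at hz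
        exact u.ne_zero hz.symm
      exact ⟨Units.mk0 z hz0, Units.ext hz⟩
    rcases lt_or_gt_of_ne hn with h | h
    · obtain ⟨v, hv⟩ := key (-n).toNat (by omega) (Additive.toMul a)
      refine ⟨Additive.ofMul v⁻¹, ?_⟩
      show (v⁻¹) ^ n = Additive.toMul a
      have h1 : n = -((-n).toNat : ℤ) := by omega
      rw [h1, zpow_neg, zpow_natCast, inv_pow, inv_inv]
      exact hv
    · obtain ⟨v, hv⟩ := key n.toNat (by omega) (Additive.toMul a)
      refine ⟨Additive.ofMul v, ?_⟩
      show v ^ n = Additive.toMul a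
      have h1 : n = (n.toNat : ℤ) := by omega
      rw [h1, zpow_natCast]
      exact hv
  exact Module.Baer.of_divisible _

end Torus

end Pool.Agent.V1116.HellyTorus
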