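import Mathlib

/-!
# Hypercentral extensions of groups with cyclic abelianization
-/

open scoped commutatorElement

namespace Pool.Agent.V1116.HyperC

variable {G : Type*} [Group G]

/-- If `G = D ⟨x⟩` and, modulo the normal subgroup `R`, the subgroup `D` is abelian and commutes
with `x`, then `[G, G] ≤ R`. -/
theorem commutator_le_of {D R : Subgroup G} [R.Normal] {x : G}
    (hx : ∀ g : G, ∃ i : ℤ, g * (x ^ i)⁻¹ ∈ D) (h1 : ∀ d ∈ D, ⁅x, d⁆ ∈ R)
    (h2 : ∀ d ∈ D, ∀ d' ∈ D, ⁅d, d'⁆ ∈ R) : commutator G ≤ R := by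
  let π := QuotientGroup.mk' R
  have hπ : ∀ g : G, π g = 1 ↔ g ∈ R := fun g => QuotientGroup.eq_one_iff g
  have c1 : ∀ d ∈ D, Commute (π x) (π d) := by
    intro d hd
    rw [← commutatorElement_eq_one_iff_commute, ← map_commutatorElement, hπ]
    exact h1 d hd
  have c2 : ∀ d ∈ D, ∀ d' ∈ D, Commute (π d) (π d') := by
    intro d hd d' hd'
    rw [← commutatorElement_eq_one_iff_commute, ← map_commutatorElement, hπ]
    exact h2 d hd d' hd'
  rw [commutator_def, Subgroup.commutator_le]
  intro g _ h _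
  obtain ⟨i, hi⟩ := hx g
  obtain ⟨j, hj⟩ := hx h
  rw [← hπ, map_commutatorElement, commutatorElement_eq_one_iff_commute]
  have eg : π g = π (g * (x ^ i)⁻¹) * π x ^ i := by
    rw [← map_zpow, ← map_mul, inv_mul_cancel_right]
  have eh : π h = π (h * (x ^ j)⁻¹) * π x ^ j := by
    rw [← map_zpow, ← map_mul, inv_mul_cancel_right]
  rw [eg, eh]
  have a1 := c2 _ hi _ hj
  have a2 : Commute (π (g * (x ^ i)⁻¹)) (π x ^ j) := ((c1 _ hi).zpow_left j).symm
  have a3 : Commute (π x ^ i) (π (h * (x ^ j)⁻¹)) := (c1 _ hj).zpow_left i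
  have a4 : Commute (π x ^ i) (π x ^ j) := Commute.zpow_zpow_self _ _ _
  exact (a1.mul_right a2).mul_left (a3.mul_right a4)

theorem commutator_le_commutator_top {x : G}
    (hx : ∀ g : G, ∃ i : ℤ, g * (x ^ i)⁻¹ ∈ commutator G) :
    commutator G ≤ ⁅commutator G, (⊤ : Subgroup G)⁆ := by
  apply commutator_le_of hx
  · intro d hd
    rw [← commutatorElement_inv]
    exact inv_mem (Subgroup.commutator_mem_commutator hd (Subgroup.mem_top x))
  · intro d hd d' _
    exact Subgroup.commutator_mem_commutator hd (Subgroup.mem_top d')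

/-- The commutator subgroup centralizes the hypercenter. -/
theorem commute_of_mem_upperCentralSeries
    (hD : commutator G ≤ ⁅commutator G, (⊤ : Subgroup G)⁆) (j : ℕ) :
    ∀ u ∈ Subgroup.upperCentralSeries G j, ∀ d ∈ commutator G, Commute u d := by
  induction j with
  | zero =>
    intro u hu d _
    rw [Subgroup.upperCentralSeries_zero, Subgroup.mem_bot] at hu
    rw [hu]; exact Commute.one_left d
  | succ j ih =>
    intro u hu d hd
    have key : ∀ i ≤ j, ∀ d ∈ commutator G, ⁅u, d⁆ ∈ Subgroup.upperCentralSeries G (j - i) := by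
      intro i
      induction i with
      | zero =>
        intro _ d _
        exact Subgroup.mem_upperCentralSeries_succ_iff.mp hu d
      | succ i ihi =>
        intro hi d hd
        have ihi' := ihi (by omega)
        have hji : j - i = (j - (i + 1)) + 1 := by omega
        rw [hji] at ihi'
        set m := j - (i + 1) with hm
        -- the subgroup of good elements
        let S : Subgroup G :=
          { carrier := {d | ⁅u, d⁆ ∈ Subgroup.upperCentralSeries G m}
            one_mem' := by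
              show ⁅u, (1 : G)⁆ ∈ Subgroup.upperCentralSeries G m
              rw [commutatorElement_one_right]; exact one_mem _
            mul_mem' := by
              intro a b ha hb
              show ⁅u, a * b⁆ ∈ Subgroup.upperCentralSeries G m
              have e : ⁅u, a * b⁆ = ⁅u, a⁆ * (a * ⁅u, b⁆ * a⁻¹) := by
                simp only [commutatorElement_def]; group
              rw [e]
              exact mul_mem ha (Subgroup.Normal.conj_mem inferInstance _ hb a)
            inv_mem' := by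
              intro a ha
              show ⁅u, a⁻¹⁆ ∈ Subgroup.upperCentralSeries G m
              have e : ⁅u, a⁻¹⁆ = a⁻¹ * ⁅u, a⁆⁻¹ * a⁻¹⁻¹ := by
                simp only [commutatorElement_def]; group
              rw [e]
              exact Subgroup.Normal.conj_mem inferInstance _ (inv_mem ha) a⁻¹ }
        have hS : ⁅commutator G, (⊤ : Subgroup G)⁆ ≤ S := by
          rw [Subgroup.commutator_le]
          intro d hd g _
          show ⁅u, ⁅d, g⁆⁆ ∈ Subgroup.upperCentralSeries G m
          -- facts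
          have hle : Subgroup.upperCentralSeries G (m + 1) ≤ Subgroup.upperCentralSeries G j :=
            Subgroup.upperCentralSeries_mono G (by omega)
          have hc := ihi' d hd
          set c := ⁅u, d⁆ with hcdef
          have hcd : Commute c d := ih c (hle hc) d hd
          -- `z = ⁅u⁻¹, g⁻¹⁆`
          have hz : ⁅u⁻¹, g⁻¹⁆ ∈ Subgroup.upperCentralSeries G j :=
            Subgroup.mem_upperCentralSeries_succ_iff.mp (inv_mem hu) g⁻¹
          have hzd : Commute ⁅u⁻¹, g⁻¹⁆ d⁻¹ := ih _ hz d⁻¹ (inv_mem hd)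
          have e1 : ⁅u, d⁻¹⁆ = c⁻¹ := by
            have : ⁅u, d⁻¹⁆ = d⁻¹ * c⁻¹ * d := by
              rw [hcdef]; simp only [commutatorElement_def]; group
            rw [this, mul_assoc, hcd.inv_left.eq, inv_mul_cancel_left]
          have e2 : ⁅u, g * d⁻¹ * g⁻¹⁆ = g * c⁻¹ * g⁻¹ := by
            have h1 : ⁅u, g * d⁻¹ * g⁻¹⁆ =
                g * (u * (⁅u⁻¹, g⁻¹⁆ * d⁻¹ * ⁅u⁻¹, g⁻¹⁆⁻¹) * u⁻¹ * d) * g⁻¹ := by
              simp only [commutatorElement_def]; group
            rw [h1, hzd.eq, mul_inv_cancel_right, ← e1, commutatorElement_def, inv_inv]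
          have hgc : g * c⁻¹ * g⁻¹ ∈ Subgroup.upperCentralSeries G j :=
            Subgroup.Normal.conj_mem inferInstance _ (inv_mem (hle hc)) g
          have e3 : ⁅u, ⁅d, g⁆⁆ = ⁅c, g⁆ := by
            have h1 : ⁅u, ⁅d, g⁆⁆ = c * (d * ⁅u, g * d⁻¹ * g⁻¹⁆ * d⁻¹) := by
              rw [hcdef]; simp only [commutatorElement_def]; group
            rw [h1, e2, ← (ih _ hgc d hd).eq, mul_inv_cancel_right, commutatorElement_def]
            simp only [mul_assoc]
          rw [e3]
          exact Subgroup.mem_upperCentralSeries_succ_iff.mp hc g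
        exact hS (hD hd)
    have h0 := key j le_rfl d hd
    rw [Nat.sub_self, Subgroup.upperCentralSeries_zero, Subgroup.mem_bot] at h0
    exact commutatorElement_eq_one_iff_commute.mp h0

/-- The second derived subgroup, as a subgroup of `G`. -/
abbrev DD (G : Type*) [Group G] : Subgroup G := ⁅commutator G, commutator G⁆

/-- The homomorphism `d ↦ ⁅x, d⁆` from `[G, G]` to `G / [[G, G], [G, G]]`. -/
def TT (x : G) : commutator G →* G ⧸ DD G where
  toFun d := QuotientGroup.mk' (DD G) ⁅x, (d : G)⁆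
  map_one' := by simp
  map_mul' a b := by
    rw [← map_mul, ← div_eq_one, ← map_div, QuotientGroup.mk'_apply, QuotientGroup.eq_one_iff]
    have hx : ∀ d : commutator G, ⁅x, (d : G)⁆ ∈ commutator G := fun d =>
      Subgroup.commutator_mem_commutator (Subgroup.mem_top _) (Subgroup.mem_top _)
    have e : ⁅x, ((a * b : commutator G) : G)⁆ / (⁅x, (a : G)⁆ * ⁅x, (b : G)⁆) =
        ⁅x, (a : G)⁆ * ⁅(a : G), ⁅x, (b : G)⁆⁆ * ⁅x, (a : G)⁆⁻¹ := by
      rw [div_eq_mul_inv, Subgroup.coe_mul]
      simp only [commutatorElement_def]; group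
    rw [e]
    exact Subgroup.Normal.conj_mem inferInstance _ (Subgroup.commutator_mem_commutator a.2 (hx b)) _

theorem TT_apply (x : G) (d : commutator G) : TT x d = QuotientGroup.mk' (DD G) ⁅x, (d : G)⁆ := rfl

theorem mem_DD_of [Finite G] {x : G} (hx : ∀ g : G, ∃ i : ℤ, g * (x ^ i)⁻¹ ∈ commutator G)
    {u : G} (hu : u ∈ commutator G) (h : ⁅x, u⁆ ∈ DD G) : u ∈ DD G := by
  let π := QuotientGroup.mk' (DD G)
  have hπ : ∀ g : G, π g = 1 ↔ g ∈ DD G := fun g => QuotientGroup.eq_one_iff g
  have habel : ∀ a ∈ commutator G, ∀ b ∈ commutator G, Commute (π a) (π b) := by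
    intro a ha b hb
    rw [← commutatorElement_eq_one_iff_commute, ← map_commutatorElement, hπ]
    exact Subgroup.commutator_mem_commutator ha hb
  -- the range of `TT x` is the image of the commutator subgroup
  let R : Subgroup G := (TT x).range.comap π
  have hmemR : ∀ g, g ∈ R ↔ ∃ d : commutator G, TT x d = π g := fun g => Iff.rfl
  have hR : R.Normal := by
    constructor
    intro g hg k
    rw [hmemR] at hg ⊢
    obtain ⟨d, hd⟩ := hg
    obtain ⟨i, hi⟩ := hx k
    -- conjugation by `x ^ i`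
    have hxi : x ^ i * (d : G) * (x ^ i)⁻¹ ∈ commutator G :=
      Subgroup.Normal.conj_mem inferInstance _ d.2 _
    refine ⟨⟨_, hxi⟩, ?_⟩
    have e1 : TT x ⟨_, hxi⟩ = π (x ^ i) * π g * (π (x ^ i))⁻¹ := by
      rw [← hd, TT_apply, TT_apply]
      have : ⁅x, x ^ i * (d : G) * (x ^ i)⁻¹⁆ = x ^ i * ⁅x, (d : G)⁆ * (x ^ i)⁻¹ := by
        have hxc : x * x ^ i = x ^ i * x := (Commute.self_zpow x i).eq
        have hxc' : (x ^ i)⁻¹ * x⁻¹ = x⁻¹ * (x ^ i)⁻¹ := by
          rw [← mul_inv_rev, hxc, mul_inv_rev]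
        simp only [commutatorElement_def, mul_inv_rev, inv_inv]
        calc x * (x ^ i * ↑d * (x ^ i)⁻¹) * x⁻¹ * (x ^ i * ((↑d)⁻¹ * (x ^ i)⁻¹))
            = (x * x ^ i) * ↑d * ((x ^ i)⁻¹ * x⁻¹) * x ^ i * (↑d)⁻¹ * (x ^ i)⁻¹ := by
              simp only [mul_assoc]
          _ = (x ^ i * x) * ↑d * (x⁻¹ * (x ^ i)⁻¹) * x ^ i * (↑d)⁻¹ * (x ^ i)⁻¹ := by
              rw [hxc, hxc']
          _ = x ^ i * (x * ↑d * x⁻¹ * (↑d)⁻¹) * (x ^ i)⁻¹ := by
              simp only [mul_assoc, inv_mul_cancel_left]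
      rw [this, map_mul, map_mul, map_inv]
    rw [e1]
    -- `π g` lies in the image of the commutator subgroup
    have hgc : Commute (π (k * (x ^ i)⁻¹)) (π (x ^ i) * π g * (π (x ^ i))⁻¹) := by
      rw [← e1, TT_apply]
      exact habel _ hi _ (Subgroup.commutator_mem_commutator (Subgroup.mem_top _) (Subgroup.mem_top _))
    have ek : π k = π (k * (x ^ i)⁻¹) * π (x ^ i) := by
      rw [← map_mul, inv_mul_cancel_right]
    rw [map_mul, map_mul, map_inv, ek, mul_inv_rev]
    calc π (x ^ i) * π g * (π (x ^ i))⁻¹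
        = π (k * (x ^ i)⁻¹) * (π (x ^ i) * π g * (π (x ^ i))⁻¹) * (π (k * (x ^ i)⁻¹))⁻¹ := by
          rw [hgc.eq, mul_inv_cancel_right]
      _ = _ := by simp only [mul_assoc]
  have hRle : commutator G ≤ R := by
    apply commutator_le_of hx
    · intro d hd
      rw [hmemR]
      exact ⟨⟨d, hd⟩, rfl⟩
    · intro d hd d' hd'
      rw [hmemR]
      refine ⟨1, ?_⟩
      rw [map_one, eq_comm, hπ]
      exact Subgroup.commutator_mem_commutator hd hd'
  -- counting
  let ρ : commutator G →* G ⧸ DD G := π.comp (commutator G).subtype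
  have hrange : ρ.range ≤ (TT x).range := by
    rintro _ ⟨d, rfl⟩
    exact hRle d.2
  have hker : ρ.ker ≤ (TT x).ker := by
    intro d hd
    rw [MonoidHom.mem_ker] at hd ⊢
    have h1 : (d : G) ∈ DD G := (hπ _).mp hd
    rw [TT_apply]
    apply (hπ _).mpr
    rw [commutatorElement_def, mul_assoc]
    have : x * (d : G) * x⁻¹ ∈ DD G := Subgroup.Normal.conj_mem inferInstance _ h1 x
    have h2 := mul_mem this (inv_mem h1)
    rwa [mul_assoc] at h2
  have hcard1 := Subgroup.card_mul_index ρ.ker
  have hcard2 := Subgroup.card_mul_index (TT x).ker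
  rw [Subgroup.index_ker] at hcard1 hcard2
  have h3 : Nat.card ρ.range ≤ Nat.card (TT x).range := Subgroup.card_le_of_le hrange
  have h4 : Nat.card ρ.ker ≤ Nat.card (TT x).ker := Subgroup.card_le_of_le hker
  have hpos : 0 < Nat.card ρ.range := Nat.card_pos
  have h5 : Nat.card (TT x).ker ≤ Nat.card ρ.ker := by
    by_contra hcon
    push Not at hcon
    have : Nat.card ρ.ker * Nat.card ρ.range < Nat.card (TT x).ker * Nat.card (TT x).range :=
      Nat.mul_lt_mul_of_lt_of_le hcon h3 (lt_of_lt_of_le hpos h3)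
    rw [hcard1, hcard2] at this
    exact lt_irrefl _ this
  have h6 : ρ.ker = (TT x).ker := Subgroup.eq_of_le_of_card_ge hker h5
  have h7 : (⟨u, hu⟩ : commutator G) ∈ (TT x).ker := by
    rw [MonoidHom.mem_ker, TT_apply]
    exact (hπ _).mpr h
  rw [← h6, MonoidHom.mem_ker] at h7
  exact (hπ _).mp h7

theorem mem_DD_of_upperCentralSeries [Finite G] {x : G}
    (hx : ∀ g : G, ∃ i : ℤ, g * (x ^ i)⁻¹ ∈ commutator G) (k : ℕ) :
    ∀ u ∈ Subgroup.upperCentralSeries G k, u ∈ commutator G → u ∈ DD G := by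
  induction k with
  | zero =>
    intro u hu _
    rw [Subgroup.upperCentralSeries_zero, Subgroup.mem_bot] at hu
    rw [hu]; exact one_mem _
  | succ k ih =>
    intro u hu huD
    apply mem_DD_of hx huD
    apply ih
    · rw [← commutatorElement_inv]
      exact inv_mem (Subgroup.mem_upperCentralSeries_succ_iff.mp hu x)
    · exact Subgroup.commutator_mem_commutator (Subgroup.mem_top _) (Subgroup.mem_top _)

/-- The bound. -/
noncomputable def bd (m : ℕ) : ℕ :=
  (Finset.range (m * m + 1)).sup Subgroup.cardCommutatorBound * m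

theorem card_commutator_le [Finite G] {G₀ : Type*} [Group G₀] [Finite G₀] (f : G →* G₀) (k : ℕ)
    (hf : f.ker ≤ Subgroup.upperCentralSeries G k) (x : G)
    (hx : ∀ g : G, ∃ i : ℤ, g * (x ^ i)⁻¹ ∈ commutator G) :
    Nat.card (commutator G) ≤ bd (Nat.card G₀) := by
  have hD := commutator_le_commutator_top hx
  have hcen : ∀ u ∈ f.ker, ∀ d ∈ commutator G, Commute u d := fun u hu d hd =>
    commute_of_mem_upperCentralSeries hD k u (hf hu) d hd
  -- the number of commutators of `D`
  let D := commutator G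
  have hnum : Nat.card (commutatorSet D) ≤ Nat.card G₀ * Nat.card G₀ := by
    -- commutators depend only on the images under `f`
    have hdep : ∀ a b a' b' : D, f a = f a' → f b = f b' → ⁅a, b⁆ = ⁅a', b'⁆ := by
      intro a b a' b' hab hab'
      have ka : (a : G) * (a' : G)⁻¹ ∈ f.ker := by
        rw [MonoidHom.mem_ker, map_mul, map_inv, hab, mul_inv_cancel]
      have kb : (b : G) * (b' : G)⁻¹ ∈ f.ker := by
        rw [MonoidHom.mem_ker, map_mul, map_inv, hab', mul_inv_cancel]
      apply Subtype.ext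
      show ⁅(a : G), (b : G)⁆ = ⁅(a' : G), (b' : G)⁆
      have ea : (a : G) = ((a : G) * (a' : G)⁻¹) * a' := by rw [inv_mul_cancel_right]
      have eb : (b : G) = ((b : G) * (b' : G)⁻¹) * b' := by rw [inv_mul_cancel_right]
      have za : ∀ d ∈ commutator G, Commute ((a : G) * (a' : G)⁻¹) d := hcen _ ka
      have zb : ∀ d ∈ commutator G, Commute ((b : G) * (b' : G)⁻¹) d := hcen _ kb
      have hza : (a : G) * (a' : G)⁻¹ ∈ commutator G := mul_mem a.2 (inv_mem a'.2)
      have hzb : (b : G) * (b' : G)⁻¹ ∈ commutator G := mul_mem b.2 (inv_mem b'.2)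
      rw [ea, eb]
      generalize (a : G) * (a' : G)⁻¹ = z at za hza ⊢
      generalize (b : G) * (b' : G)⁻¹ = w at zb hzb ⊢
      have c1 := za _ a'.2
      have c2 := za _ b'.2
      have c3 := za _ hzb
      have c4 := zb _ b'.2
      have c5 := zb _ a'.2
      simp only [commutatorElement_def, mul_inv_rev]
      calc z * ↑a' * (w * ↑b') * ((↑a')⁻¹ * z⁻¹) * ((↑b')⁻¹ * w⁻¹)
          = z * (↑a' * w) * ↑b' * (↑a')⁻¹ * (z⁻¹ * (↑b')⁻¹) * w⁻¹ := by simp only [mul_assoc]
        _ = z * (w * ↑a') * ↑b' * (↑a')⁻¹ * ((↑b')⁻¹ * z⁻¹) * w⁻¹ := by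
            rw [c5.eq, (c2.inv_inv).eq]
        _ = (z * w) * (↑a' * ↑b' * (↑a')⁻¹ * (↑b')⁻¹) * (z⁻¹ * w⁻¹) := by simp only [mul_assoc]
        _ = (↑a' * ↑b' * (↑a')⁻¹ * (↑b')⁻¹) * (z * w) * (z⁻¹ * w⁻¹) := by
            have hcc : (↑a' * ↑b' * (↑a')⁻¹ * (↑b')⁻¹ : G) ∈ commutator G :=
              mul_mem (mul_mem (mul_mem a'.2 b'.2) (inv_mem a'.2)) (inv_mem b'.2)
            rw [((za _ hcc).mul_left (zb _ hcc)).eq]
        _ = _ := by
            have : w * z * (z⁻¹ * w⁻¹) = 1 := by group
            rw [c3.eq, mul_assoc _ (w * z), this, mul_one]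
    rw [← Nat.card_prod]
    let F : commutatorSet D → G₀ × G₀ := fun c =>
      (f ((mem_commutatorSet_iff.mp c.2).choose : D),
        f ((mem_commutatorSet_iff.mp c.2).choose_spec.choose : D))
    apply Nat.card_le_card_of_injective F
    intro c c' hcc
    have s1 := (mem_commutatorSet_iff.mp c.2).choose_spec.choose_spec
    have s2 := (mem_commutatorSet_iff.mp c'.2).choose_spec.choose_spec
    apply Subtype.ext
    rw [← s1, ← s2]
    exact hdep _ _ _ _ (congrArg Prod.fst hcc) (congrArg Prod.snd hcc)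
  have hDD : Nat.card (DD G) ≤ (Finset.range (Nat.card G₀ * Nat.card G₀ + 1)).sup
      Subgroup.cardCommutatorBound := by
    have h1 := Subgroup.card_commutator_le_of_finite_commutatorSet D
    have h2 : Nat.card (DD G) ≤ Nat.card (_root_.commutator D) := by
      have h3 : (_root_.commutator D).map D.subtype = DD G := by
        rw [commutator_def, Subgroup.map_commutator]
        congr 1 <;> exact (MonoidHom.range_eq_map _).symm.trans (Subgroup.range_subtype _)
      rw [← h3]
      exact (Nat.card_congr ((_root_.commutator D).equivMapOfInjective D.subtype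
        D.subtype_injective).toEquiv).ge
    refine (h2.trans h1).trans ?_
    exact Finset.le_sup (f := Subgroup.cardCommutatorBound) (Finset.mem_range.mpr (by omega))
  -- the kernel of `f` on `D`
  let g : D →* G₀ := f.comp D.subtype
  have hk : Nat.card g.ker ≤ Nat.card (DD G) := by
    apply Nat.card_le_card_of_injective (fun z : g.ker => (⟨(z : D), by
      have hz : ((z : D) : G) ∈ f.ker := z.2
      exact mem_DD_of_upperCentralSeries hx k _ (hf hz) (z : D).2⟩ : DD G))
    intro z z' hzz
    apply Subtype.ext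
    apply Subtype.ext
    exact congrArg (fun t : DD G => (t : G)) hzz
  have hr : Nat.card g.range ≤ Nat.card G₀ := Nat.card_le_card_of_injective _ Subtype.val_injective
  have hcard := Subgroup.card_mul_index g.ker
  rw [Subgroup.index_ker] at hcard
  rw [← hcard]
  exact Nat.mul_le_mul (hk.trans hDD) hr

end Pool.Agent.V1116.HyperC
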